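import Mathlib

/-!
The submodule generated by the determinants of the families of vectors of a submodule:
multiplicativity, change of basis, transport, powers, finite generation, nonvanishing.
-/

set_option linter.all false

namespace H91.VG

variable {R K : Type} [CommRing R] [IsDomain R] [Field K] [Algebra R K] [IsFractionRing R K]

/-- The `R`-span of the determinants, in the basis `b`, of all families of vectors of `M`. -/
def detSub {E ι : Type} [AddCommGroup E] [Module K E] [Module R E] [Fintype ι] [DecidableEq ι]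
    (b : Module.Basis ι K E) (M : Submodule R E) : Submodule R K :=
  Submodule.span R {c | ∃ m : ι → E, (∀ i, m i ∈ M) ∧ c = b.det m}

omit [IsDomain R] [IsFractionRing R K] in
private theorem h52det_mem {E ι : Type} [AddCommGroup E] [Module K E] [Module R E]
    [Fintype ι] [DecidableEq ι]
    (b : Module.Basis ι K E) (M : Submodule R E) (m : ι → E) (hm : ∀ i, m i ∈ M) :
    b.det m ∈ detSub b M :=
  Submodule.subset_span ⟨m, hm, rfl⟩

omit [CommRing R] [IsDomain R] [Algebra R K] [IsFractionRing R K] in
/-- the determinant of a block diagonal family -/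
private theorem h52det_block {E₁ E₂ ι₁ ι₂ : Type} [AddCommGroup E₁] [Module K E₁]
    [AddCommGroup E₂] [Module K E₂]
    [Fintype ι₁] [DecidableEq ι₁] [Fintype ι₂] [DecidableEq ι₂]
    (b₁ : Module.Basis ι₁ K E₁) (b₂ : Module.Basis ι₂ K E₂) (x : ι₁ → E₁) (y : ι₂ → E₂) :
    (b₁.prod b₂).det (Sum.elim (fun i => (x i, (0 : E₂))) (fun j => ((0 : E₁), y j))) =
      b₁.det x * b₂.det y := by
  rw [Module.Basis.det_apply, Module.Basis.det_apply, Module.Basis.det_apply]
  have h : (b₁.prod b₂).toMatrix
      (Sum.elim (fun i => (x i, (0 : E₂))) (fun j => ((0 : E₁), y j))) =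
      Matrix.fromBlocks (b₁.toMatrix x) 0 0 (b₂.toMatrix y) := by
    ext (i | i) (j | j) <;> simp [Module.Basis.toMatrix_apply, Module.Basis.prod_repr_inl,
      Module.Basis.prod_repr_inr]
  rw [h, Matrix.det_fromBlocks_zero₂₁]

omit [CommRing R] [IsDomain R] [Algebra R K] [IsFractionRing R K] in
/-- a family, part of which lies in the first factor and the rest in the second, with a nonzero
determinant: the first part has as many members as the dimension of the first factor -/
private theorem h52det_card {E₁ E₂ ι₁ ι₂ : Type} [AddCommGroup E₁] [Module K E₁]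
    [AddCommGroup E₂] [Module K E₂]
    [Fintype ι₁] [DecidableEq ι₁] [Fintype ι₂] [DecidableEq ι₂]
    (b₁ : Module.Basis ι₁ K E₁) (b₂ : Module.Basis ι₂ K E₂)
    (x : ι₁ ⊕ ι₂ → E₁) (y : ι₁ ⊕ ι₂ → E₂) (s : Finset (ι₁ ⊕ ι₂))
    (h : (b₁.prod b₂).det (s.piecewise (fun i => (x i, (0 : E₂))) (fun i => ((0 : E₁), y i))) ≠ 0) :
    s.card = Fintype.card ι₁ ∧ sᶜ.card = Fintype.card ι₂ := by
  have hu : IsUnit ((b₁.prod b₂).det
      (s.piecewise (fun i => (x i, (0 : E₂))) (fun i => ((0 : E₁), y i)))) := by
    rw [isUnit_iff_ne_zero]; exact h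
  have hli := ((Module.Basis.is_basis_iff_det (b₁.prod b₂)).mpr hu).1
  have hf1 : Module.finrank K E₁ = Fintype.card ι₁ := Module.finrank_eq_card_basis b₁
  have hf2 : Module.finrank K E₂ = Fintype.card ι₂ := Module.finrank_eq_card_basis b₂
  haveI : FiniteDimensional K E₁ := b₁.finiteDimensional_of_finite
  haveI : FiniteDimensional K E₂ := b₂.finiteDimensional_of_finite
  have h1 : s.card ≤ Fintype.card ι₁ := by
    have hli1 : LinearIndependent K (fun i : s => x i) := by
      have h2 := hli.comp (fun i : s => (i : ι₁ ⊕ ι₂)) Subtype.val_injective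
      have h3 : (s.piecewise (fun i => (x i, (0 : E₂))) (fun i => ((0 : E₁), y i))) ∘
          (fun i : s => (i : ι₁ ⊕ ι₂)) = (LinearMap.inl K E₁ E₂) ∘ (fun i : s => x i) := by
        funext i
        simp [Finset.piecewise_eq_of_mem _ _ _ i.2]
      rw [h3] at h2
      exact LinearIndependent.of_comp _ h2
    have := hli1.fintype_card_le_finrank
    rw [hf1] at this
    simpa using this
  have h2 : sᶜ.card ≤ Fintype.card ι₂ := by
    have hli1 : LinearIndependent K (fun i : (sᶜ : Finset (ι₁ ⊕ ι₂)) => y i) := by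
      have h2 := hli.comp (fun i : (sᶜ : Finset (ι₁ ⊕ ι₂)) => (i : ι₁ ⊕ ι₂)) Subtype.val_injective
      have h3 : (s.piecewise (fun i => (x i, (0 : E₂))) (fun i => ((0 : E₁), y i))) ∘
          (fun i : (sᶜ : Finset (ι₁ ⊕ ι₂)) => (i : ι₁ ⊕ ι₂)) =
          (LinearMap.inr K E₁ E₂) ∘ (fun i : (sᶜ : Finset (ι₁ ⊕ ι₂)) => y i) := by
        funext i
        simp [Finset.piecewise_eq_of_notMem _ _ _ (Finset.mem_compl.mp i.2)]
      rw [h3] at h2
      exact LinearIndependent.of_comp _ h2
    have h4 := hli1.fintype_card_le_finrank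
    rw [hf2, Fintype.card_coe] at h4
    exact h4
  have h3 : s.card + sᶜ.card = Fintype.card ι₁ + Fintype.card ι₂ := by
    rw [Finset.card_add_card_compl, Fintype.card_sum]
  omega

/-- (P1a) multiplicativity -/
theorem detSub_prod {E₁ E₂ ι₁ ι₂ : Type} [AddCommGroup E₁] [Module K E₁] [Module R E₁]
    [AddCommGroup E₂] [Module K E₂] [Module R E₂]
    [IsScalarTower R K E₁] [IsScalarTower R K E₂]
    [Fintype ι₁] [DecidableEq ι₁] [Fintype ι₂] [DecidableEq ι₂]
    (b₁ : Module.Basis ι₁ K E₁) (b₂ : Module.Basis ι₂ K E₂)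
    (M₁ : Submodule R E₁) (M₂ : Submodule R E₂) :
    detSub (b₁.prod b₂) (M₁.prod M₂) = detSub b₁ M₁ * detSub b₂ M₂ := by
  apply le_antisymm
  · refine Submodule.span_le.mpr ?_
    rintro c ⟨m, hm, rfl⟩
    rw [SetLike.mem_coe]
    set X : ι₁ ⊕ ι₂ → E₁ × E₂ := fun i => ((m i).1, (0 : E₂)) with hX
    set Y : ι₁ ⊕ ι₂ → E₁ × E₂ := fun i => ((0 : E₁), (m i).2) with hY
    have hsum : m = X + Y := by
      funext i
      simp [hX, hY]
    have hexp : (b₁.prod b₂).det m =
        ∑ s : Finset (ι₁ ⊕ ι₂), (b₁.prod b₂).det (s.piecewise X Y) := by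
      conv_lhs => rw [hsum]
      exact (b₁.prod b₂).det.toMultilinearMap.map_add_univ X Y
    rw [hexp]
    refine Submodule.sum_mem _ fun s _ => ?_
    by_cases h0 : (b₁.prod b₂).det (s.piecewise X Y) = 0
    · rw [h0]; exact Submodule.zero_mem _
    obtain ⟨hc1, hc2⟩ := h52det_card b₁ b₂ (fun i => (m i).1) (fun i => (m i).2) s h0
    have e₁ : ι₁ ≃ {i // i ∈ s} := Fintype.equivOfCardEq (by simp [hc1])
    have e₂ : ι₂ ≃ {i // ¬ i ∈ s} := Fintype.equivOfCardEq (by
      rw [Fintype.card_subtype_compl]
      have : s.card + sᶜ.card = Fintype.card (ι₁ ⊕ ι₂) := Finset.card_add_card_compl s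
      simp
      simp at this
      omega)
    let σ : Equiv.Perm (ι₁ ⊕ ι₂) := (Equiv.sumCongr e₁ e₂).trans (Equiv.sumCompl (fun i => i ∈ s))
    have hcomp : (s.piecewise X Y) ∘ σ =
        Sum.elim (fun i => ((m (e₁ i)).1, (0 : E₂))) (fun j => ((0 : E₁), (m (e₂ j)).2)) := by
      funext i
      rcases i with i | i
      · have h5 : σ (Sum.inl i) = (e₁ i : ι₁ ⊕ ι₂) := by simp [σ]
        rw [Function.comp_apply, h5, Finset.piecewise_eq_of_mem _ _ _ (e₁ i).2]
        rfl
      · have h5 : σ (Sum.inr i) = (e₂ i : ι₁ ⊕ ι₂) := by simp [σ]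
        rw [Function.comp_apply, h5, Finset.piecewise_eq_of_notMem _ _ _ (e₂ i).2]
        rfl
    have hperm := (b₁.prod b₂).det.map_perm (s.piecewise X Y) σ
    rw [hcomp, h52det_block b₁ b₂ (fun i => (m (e₁ i)).1) (fun j => (m (e₂ j)).2)] at hperm
    have hmem : b₁.det (fun i => (m (e₁ i)).1) * b₂.det (fun j => (m (e₂ j)).2) ∈
        detSub b₁ M₁ * detSub b₂ M₂ :=
      Submodule.mul_mem_mul (h52det_mem b₁ M₁ _ fun i => (hm _).1)
        (h52det_mem b₂ M₂ _ fun i => (hm _).2)
    rcases Int.units_eq_one_or (Equiv.Perm.sign σ) with hs | hs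
    · rw [hs, one_smul] at hperm
      rw [← hperm]; exact hmem
    · rw [hs] at hperm
      have : (b₁.prod b₂).det (s.piecewise X Y) =
          -(b₁.det (fun i => (m (e₁ i)).1) * b₂.det (fun j => (m (e₂ j)).2)) := by
        rw [hperm]; simp
      rw [this]
      exact Submodule.neg_mem _ hmem
  · unfold detSub
    rw [Submodule.span_mul_span]
    refine Submodule.span_le.mpr ?_
    rintro c ⟨_, ⟨x, hx, rfl⟩, _, ⟨y, hy, rfl⟩, rfl⟩
    refine Submodule.subset_span ⟨_, ?_, (h52det_block b₁ b₂ x y).symm⟩
    rintro (i | i)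
    · exact ⟨hx i, M₂.zero_mem⟩
    · exact ⟨M₁.zero_mem, hy i⟩

/-- (P1b) change of basis, also with another index type -/
theorem detSub_change {E ι ι' : Type} [AddCommGroup E] [Module K E] [Module R E]
    [IsScalarTower R K E]
    [Fintype ι] [DecidableEq ι] [Fintype ι'] [DecidableEq ι']
    (b : Module.Basis ι K E) (b' : Module.Basis ι' K E) (e : ι ≃ ι') (M : Submodule R E) :
    detSub b' M = Submodule.span R {b'.det (b ∘ e.symm)} * detSub b M := by
  have key : ∀ m : ι' → E, b'.det m = b'.det (b ∘ e.symm) * b.det (m ∘ e) := by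
    intro m
    have h := AlternatingMap.eq_smul_basis_det (b.reindex e) b'.det
    have h2 := congrArg (fun f => f m) h
    simp only [AlternatingMap.smul_apply, smul_eq_mul, Module.Basis.det_reindex] at h2
    rw [h2]
    congr 2
    funext i
    simp
  unfold detSub
  rw [Submodule.span_mul_span]
  congr 1
  ext c
  constructor
  · rintro ⟨m, hm, rfl⟩
    rw [key m]
    exact ⟨_, rfl, _, ⟨m ∘ e, fun i => hm _, rfl⟩, rfl⟩
  · rintro ⟨_, rfl, _, ⟨m, hm, rfl⟩, rfl⟩
    refine ⟨m ∘ e.symm, fun i => hm _, ?_⟩
    rw [key (m ∘ e.symm)]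
    have : (m ∘ e.symm) ∘ e = m := by funext i; simp
    rw [this]

/-- (P1c) transport by an isomorphism -/
theorem detSub_map {E E' ι : Type} [AddCommGroup E] [Module K E] [Module R E]
    [AddCommGroup E'] [Module K E'] [Module R E']
    [IsScalarTower R K E] [IsScalarTower R K E']
    [Fintype ι] [DecidableEq ι] (b : Module.Basis ι K E) (f : E ≃ₗ[K] E') (M : Submodule R E)
    (M' : Submodule R E') (hM : ∀ x, x ∈ M ↔ f x ∈ M') :
    detSub (b.map f) M' = detSub b M := by
  unfold detSub
  congr 1
  ext c
  constructor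
  · rintro ⟨m, hm, rfl⟩
    refine ⟨f.symm ∘ m, fun i => ?_, ?_⟩
    · rw [hM]; simpa using hm i
    · rw [Module.Basis.det_map]
  · rintro ⟨m, hm, rfl⟩
    refine ⟨f ∘ m, fun i => (hM _).mp (hm i), ?_⟩
    rw [Module.Basis.det_map]
    congr 1
    funext i
    simp

omit [IsDomain R] [IsFractionRing R K] in
private theorem h52det_empty {E ι : Type} [AddCommGroup E] [Module K E] [Module R E]
    [Fintype ι] [DecidableEq ι] [IsEmpty ι] (b : Module.Basis ι K E)
    (M : Submodule R E) : detSub b M = 1 := by
  unfold detSub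
  rw [Submodule.one_eq_span]
  congr 1
  ext c
  constructor
  · rintro ⟨m, hm, rfl⟩
    simp [Module.Basis.det_isEmpty]
  · intro h
    rw [Set.mem_singleton_iff] at h
    refine ⟨fun i => isEmptyElim i, fun i => isEmptyElim i, ?_⟩
    rw [h]
    simp [Module.Basis.det_isEmpty]

/-- (P1d) powers; the basis of `Fin r → E` is indexed by `Fin r × ι` -/
theorem detSub_pi {E ι : Type} [AddCommGroup E] [Module K E] [Module R E]
    [IsScalarTower R K E] [Fintype ι] [DecidableEq ι] (b : Module.Basis ι K E)
    (M : Submodule R E) (r : ℕ) (B : Module.Basis (Fin r × ι) K (Fin r → E))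
    (hB : ∀ i a, B (i, a) = Pi.single i (b a)) :
    detSub B (Submodule.pi Set.univ fun _ => M) = detSub b M ^ r := by
  induction r with
  | zero =>
    rw [pow_zero]
    exact h52det_empty B _
  | succ r ih =>
    let B' : Module.Basis (Fin r × ι) K (Fin r → E) :=
      (Pi.basis (fun _ : Fin r => b)).reindex (Equiv.sigmaEquivProd _ _)
    have hB' : ∀ i a, B' (i, a) = Pi.single i (b a) := by
      intro i a
      simp [B', Pi.basis_apply]
    let f : (Fin (r + 1) → E) ≃ₗ[K] E × (Fin r → E) :=
      (Fin.consLinearEquiv K (fun _ : Fin (r + 1) => E)).symm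
    have hf : ∀ x, f x = (x 0, fun i => x i.succ) := by
      intro x
      rfl
    let e : ι ⊕ (Fin r × ι) ≃ Fin (r + 1) × ι :=
      { toFun := Sum.elim (fun a => (0, a)) (fun p => (p.1.succ, p.2))
        invFun := fun p => Fin.cases (motive := fun _ => ι ⊕ (Fin r × ι)) (Sum.inl p.2)
          (fun i => Sum.inr (i, p.2)) p.1
        left_inv := by
          rintro (a | ⟨i, a⟩) <;> simp
        right_inv := by
          rintro ⟨i, a⟩
          refine Fin.cases ?_ (fun i => ?_) i <;> simp }
    have h1 : detSub (B.map f) (M.prod (Submodule.pi Set.univ fun _ => M)) =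
        detSub B (Submodule.pi Set.univ fun _ => M) := by
      refine detSub_map B f _ _ fun x => ?_
      rw [hf]
      simp only [Submodule.mem_pi, Set.mem_univ, forall_const, Submodule.mem_prod]
      exact Fin.forall_fin_succ
    have h2 := detSub_change (b.prod B') (B.map f) e (M.prod (Submodule.pi Set.univ fun _ => M))
    have h3 : (b.prod B') ∘ e.symm = B.map f := by
      have h4 : ∀ x, (b.prod B') x = (B.map f) (e x) := by
        rintro (a | ⟨i, a⟩)
        · rw [Module.Basis.map_apply, hf]
          have : e (Sum.inl a) = (0, a) := rfl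
          rw [this, hB]
          ext j
          · simp
          · simp
        · rw [Module.Basis.map_apply, hf]
          have : e (Sum.inr (i, a)) = (i.succ, a) := rfl
          rw [this, hB]
          ext j
          · simp
          · simp [hB', Pi.single_apply]
      funext y
      rw [Function.comp_apply, h4, Equiv.apply_symm_apply]
    rw [h3, Module.Basis.det_self, ← Submodule.one_eq_span, one_mul, detSub_prod,
      ih B' hB', h1] at h2
    rw [h2, pow_succ']

omit [IsDomain R] [IsFractionRing R K] in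
/-- the determinant of a family of linear combinations -/
private theorem h52det_sum {E ι : Type} [AddCommGroup E] [Module K E]
    [Fintype ι] [DecidableEq ι] (b : Module.Basis ι K E) (n : ι → ℕ)
    (c : (i : ι) → Fin (n i) → K) (s : (i : ι) → Fin (n i) → E) :
    b.det (fun i => ∑ j, c i j • s i j) =
      ∑ t : (i : ι) → Fin (n i), (∏ i, c i (t i)) • b.det (fun i => s i (t i)) := by
  have h := b.det.toMultilinearMap.map_sum (fun i j => c i j • s i j)
  rw [AlternatingMap.coe_multilinearMap] at h
  rw [h]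
  refine Finset.sum_congr rfl fun t _ => ?_
  exact b.det.toMultilinearMap.map_smul_univ (fun i => c i (t i)) (fun i => s i (t i))

/-- (P1e) finitely generated and nonzero -/
theorem detSub_fg {E ι : Type} [AddCommGroup E] [Module K E] [Module R E]
    [IsScalarTower R K E] [Fintype ι] [DecidableEq ι] (b : Module.Basis ι K E)
    (M : Submodule R E) (hM : M.FG) : (detSub b M).FG := by
  obtain ⟨n, s, hs⟩ := Submodule.fg_iff_exists_fin_generating_family.mp hM
  have hle : detSub b M = Submodule.span R (Set.range fun t : ι → Fin n => b.det (s ∘ t)) := by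
    apply le_antisymm
    · refine Submodule.span_le.mpr ?_
      rintro c ⟨m, hm, rfl⟩
      rw [SetLike.mem_coe]
      have hex : ∀ i, ∃ c : Fin n → R, ∑ j, c j • s j = m i := by
        intro i
        have := hm i
        rw [← hs] at this
        exact (Submodule.mem_span_range_iff_exists_fun R).mp this
      choose c hc using hex
      have h1 : m = fun i => ∑ j, (algebraMap R K (c i j)) • s j := by
        funext i
        rw [← hc i]
        refine Finset.sum_congr rfl fun j _ => ?_
        rw [algebraMap_smul]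
      rw [h1, h52det_sum b (fun _ => n) (fun i j => algebraMap R K (c i j)) (fun _ j => s j)]
      refine Submodule.sum_mem _ fun t _ => ?_
      rw [← map_prod, algebraMap_smul]
      exact Submodule.smul_mem _ _ (Submodule.subset_span ⟨t, rfl⟩)
    · refine Submodule.span_le.mpr ?_
      rintro c ⟨t, rfl⟩
      refine h52det_mem b M _ fun i => ?_
      rw [← hs]
      exact Submodule.subset_span ⟨t i, rfl⟩
  rw [hle]
  exact Submodule.fg_span (Set.finite_range _)

theorem detSub_ne_bot {E ι : Type} [AddCommGroup E] [Module K E] [Module R E]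
    [IsScalarTower R K E] [Fintype ι] [DecidableEq ι] (b : Module.Basis ι K E)
    (M : Submodule R E) (hM : Submodule.span K (M : Set E) = ⊤) : detSub b M ≠ ⊥ := by
  intro hbot
  have hz : ∀ m : ι → E, (∀ i, m i ∈ M) → b.det m = 0 := by
    intro m hm
    have := h52det_mem b M m hm
    rw [hbot] at this
    simpa using this
  have hex : ∀ i, ∃ (n : ℕ) (c : Fin n → K) (g : Fin n → E), (∀ j, g j ∈ M) ∧
      ∑ j, c j • g j = b i := by
    intro i
    have : b i ∈ Submodule.span K (M : Set E) := by rw [hM]; trivial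
    rw [Submodule.mem_span_set'] at this
    obtain ⟨n, c, g, h⟩ := this
    exact ⟨n, c, fun j => (g j : E), fun j => (g j).2, h⟩
  choose n c g hg hsum using hex
  have h1 : b.det b = 0 := by
    have h2 : (b : ι → E) = fun i => ∑ j, c i j • g i j := by
      funext i
      exact (hsum i).symm
    have h3 : b.det (b : ι → E) = b.det (fun i => ∑ j, c i j • g i j) := congrArg b.det h2
    rw [h3, h52det_sum b n c g]
    refine Finset.sum_eq_zero fun t _ => ?_
    rw [hz _ fun i => hg i (t i), smul_zero]
  rw [Module.Basis.det_self] at h1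
  exact one_ne_zero h1

end H91.VG
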