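import Pool.Agent.H91.VG.Ded

/-!
# Odd prime rank: no multiplication

If the rank of `T_X` is an odd prime, then `End_Hdg(T_X) = ℤ` (Zarhin 1983, van Geemen 2008).
In odd rank a Hodge endomorphism is self-adjoint, since the determinant of a skew endomorphism
vanishes; hence its eigenvalue on `H^{3,1}` is real.  If the rank is prime and there are more
Hodge endomorphisms than scalars, then `ℚ ⊗ T_X` is one-dimensional over them, so that the
eigenvectors with the eigenvalues of `ω` form a space of dimension one; but `ω` and `conj ω`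
are two independent ones.
-/

set_option linter.all false

namespace H91.VG

open scoped TensorProduct

/-- A skew endomorphism of a nondegenerate lattice of odd rank is not injective. -/
theorem Lat.skew_ker (L : Lat) (hL : L.Nondeg) (hodd : Odd L.rk) (g : L.Hom L)
    (h : ∀ s t, L.q (g s) t = - L.q s (g t)) : ∃ v, v ≠ 0 ∧ g v = 0 := by
  classical
  let b := Module.Free.chooseBasis ℤ L.V
  have hnd : (LinearMap.BilinForm.toMatrix b L.form).det ≠ 0 := by
    rw [← LinearMap.BilinForm.nondegenerate_iff_det_ne_zero b]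
    refine ⟨?_, ?_⟩
    · intro x hx
      exact hL x hx
    · intro x hx
      refine hL x fun y => ?_
      rw [Lat.q_symm]
      exact hx y
  have h1 : L.form.compLeft g = -(L.form.compRight g) := by
    ext s t
    exact h s t
  have h2 := congrArg (LinearMap.BilinForm.toMatrix b) h1
  rw [LinearMap.BilinForm.toMatrix_compLeft, map_neg, LinearMap.BilinForm.toMatrix_compRight] at h2
  have h3 := congrArg Matrix.det h2
  rw [Matrix.det_mul, Matrix.det_transpose, Matrix.det_neg, Matrix.det_mul] at h3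
  have hcard : Odd (Fintype.card (Module.Free.ChooseBasisIndex ℤ L.V)) := by
    have : Fintype.card (Module.Free.ChooseBasisIndex ℤ L.V) = L.rk :=
      (Module.finrank_eq_card_basis b).symm
    rw [this]
    exact hodd
  rw [hcard.neg_one_pow] at h3
  have h4 : (LinearMap.toMatrix b b g).det = 0 := by
    have h5 : (2 * (LinearMap.BilinForm.toMatrix b L.form).det) * (LinearMap.toMatrix b b g).det = 0 := by
      linear_combination h3
    rcases mul_eq_zero.mp h5 with h6 | h6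
    · exact absurd h6 (mul_ne_zero two_ne_zero hnd)
    · exact h6
  obtain ⟨v, hv0, hv⟩ := Matrix.exists_mulVec_eq_zero_iff.mpr h4
  refine ⟨∑ i, v i • b i, ?_, ?_⟩
  · intro h0
    apply hv0
    funext i
    have := congrArg (fun x => b.repr x i) h0
    simpa [Finsupp.single_apply] using this
  · apply b.ext_elem
    intro i
    have h5 := congrFun hv i
    have h6 := LinearMap.toMatrix_mulVec_repr b b g (∑ i, v i • b i)
    have h7 : (⇑(b.repr (∑ i, v i • b i))) = v := by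
      funext j
      simp [Finsupp.single_apply]
    rw [h7, hv] at h6
    rw [← congrFun h6 i]
    simp

/-- The complex form of a lattice with finite discriminant is nondegenerate. -/
theorem Lat.qC_nondeg (L : Lat)
    (hN : ∃ N : ℤ, 0 < N ∧ ∀ l : L.V →ₗ[ℤ] ℤ, ∃ s, ∀ t, L.q s t = N * l t) {x : L.C}
    (h : ∀ t : L.V, L.qC (L.one t) x = 0) : x = 0 := by
  classical
  obtain ⟨N, hN0, hrep⟩ := hN
  let b := Module.Free.chooseBasis ℤ L.V
  choose d hd using fun i => hrep (b.coord i)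
  let bC := b.baseChange ℂ
  have hNC : (N : ℂ) ≠ 0 := by exact_mod_cast hN0.ne'
  rw [← bC.sum_repr x]
  refine Finset.sum_eq_zero fun i _ => ?_
  have h1 : L.qC (L.one (d i)) x = N * bC.repr x i := by
    have h2 : L.qC (L.one (d i)) x = L.qC (L.one (d i)) (∑ j, bC.repr x j • bC j) := by
      rw [bC.sum_repr x]
    rw [h2, qC_eq, map_sum]
    have h3 : ∀ j, (L.form.baseChange ℂ (L.one (d i))) (bC.repr x j • bC j)
        = if i = j then N * bC.repr x j else 0 := by
      intro j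
      rw [map_smul, smul_eq_mul]
      have h4 : (L.form.baseChange ℂ (L.one (d i))) (bC j) = ((L.q (d i) (b j) : ℤ) : ℂ) := by
        rw [← Lat.qC_one_one]
        simp only [bC, Module.Basis.baseChange_apply]
        rfl
      rw [h4, hd, Module.Basis.coord_apply, b.repr_self, Finsupp.single_apply]
      by_cases hij : i = j
      · subst hij
        simp [mul_comm]
      · rw [if_neg hij, if_neg (fun h => hij h.symm)]
        simp
    rw [Finset.sum_congr rfl fun j _ => h3 j]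
    simp
  rw [h] at h1
  have h5 : bC.repr x i = 0 := (mul_eq_zero.mp h1.symm).resolve_left hNC
  rw [h5, zero_smul]

namespace Coh

variable (X : Coh)

theorem inO_sub {e f : X.T.Hom X.T} (he : X.InO e) (hf : X.InO f) : X.InO (e - f) := by
  rw [sub_eq_add_neg]
  exact X.inO_add he (X.inO_neg hf)

/-- A nonzero element of `O_X` divides a nonzero integer. -/
theorem exists_inv {e : X.T.Hom X.T} (he : X.InO e) (h0 : e ≠ 0) :
    ∃ (k : ℤ) (e' : X.T.Hom X.T), k ≠ 0 ∧ X.InO e' ∧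
      e ∘ₗ e' = (k • LinearMap.id : X.T.Hom X.T) ∧
      e' ∘ₗ e = (k • LinearMap.id : X.T.Hom X.T) := by
  obtain ⟨z, hz⟩ := X.exists_eig he
  have hz0 : z ≠ 0 := by
    intro h
    apply h0
    apply X.hom_eq_zero_of_om
    rw [hz, h, zero_smul]
  obtain ⟨k, hk, w, ⟨e', he', hw⟩, hzw⟩ := X.exists_mul_eq_int ⟨e, he, hz⟩ hz0
  have hid : mapC (k • LinearMap.id : X.T.Hom X.T) X.om = (k : ℂ) • X.om := by
    rw [mapC_map_smul, mapC_id, Int.cast_smul_eq_zsmul]
  refine ⟨k, e', hk, he', ?_, ?_⟩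
  · apply X.hom_ext_of_om
    rw [hid, mapC_comp, hw, mapC_smul, hz, smul_smul, mul_comm w z, hzw]
  · apply X.hom_ext_of_om
    rw [hid, mapC_comp, hz, mapC_smul, hw, smul_smul, hzw]

theorem smul_eq_zero_T {k : ℤ} (hk : k ≠ 0) {v : X.T.V} (h : k • v = 0) : v = 0 :=
  (smul_eq_zero.mp h).resolve_left hk

theorem inO_injective {e : X.T.Hom X.T} (he : X.InO e) (h0 : e ≠ 0) {v : X.T.V}
    (h : e v = 0) : v = 0 := by
  obtain ⟨k, e', hk, _, _, h2⟩ := X.exists_inv he h0
  apply X.smul_eq_zero_T hk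
  have h3 : (e' ∘ₗ e) v = k • v := by
    rw [h2]
    rfl
  rw [← h3, LinearMap.comp_apply, h, map_zero]

/-- In odd rank the elements of `O_X` are self-adjoint. -/
theorem selfadj (hodd : Odd X.T.rk) {e : X.T.Hom X.T} (he : X.InO e) (s t : X.T.V) :
    X.T.q s (e t) = X.T.q (e s) t := by
  obtain ⟨e', he', hadj⟩ := X.inO_adj he
  have h1 : e - e' = 0 := by
    by_contra hne
    obtain ⟨v, hv0, hv⟩ := X.T.skew_ker (fun x hx => X.T_nondeg hx) hodd (e - e') (by
      intro s t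
      have h2 : X.T.q ((e - e') s) t = X.T.q (e s) t - X.T.q (e' s) t := by
        rw [LinearMap.sub_apply, sub_eq_add_neg, Lat.q_add_left, ← neg_one_zsmul,
          Lat.q_smul_left]
        ring
      have h3 : X.T.q s ((e - e') t) = X.T.q s (e t) - X.T.q s (e' t) := by
        rw [LinearMap.sub_apply, sub_eq_add_neg, Lat.q_add_right, ← neg_one_zsmul,
          Lat.q_smul_right]
        ring
      have h4 : X.T.q s (e' t) = X.T.q (e s) t := by
        rw [Lat.q_symm X.T s (e' t), ← hadj t s, Lat.q_symm X.T t (e s)]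
      rw [h2, h3, h4, hadj s t]
      ring)
    exact hv0 (X.inO_injective (X.inO_sub he he') hne hv)
  rw [hadj, ← sub_eq_zero.mp h1]

/-- The eigenvalues are real. -/
theorem eig_real (hodd : Odd X.T.rk) {e : X.T.Hom X.T} (he : X.InO e) {z : ℂ}
    (hz : mapC e X.om = z • X.om) : starRingEnd ℂ z = z := by
  have h1 := qC_ext (L := X.T) (M := X.T) (LinearMap.id : X.T.Hom X.T) e e
    (LinearMap.id : X.T.Hom X.T) 1 (fun a b => by rw [one_mul]; exact X.selfadj hodd he a b)
    X.om (X.T.conj X.om)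
  rw [mapC_id, mapC_id, Int.cast_one, one_mul, hz, ← mapC_conj, hz, Lat.conj_smul,
    Lat.qC_smul_left, Lat.qC_smul_right] at h1
  exact mul_right_cancel₀ X.c0_ne h1

/-! ### The algebra of rational Hodge endomorphisms -/

/-- `ℚ ⊗ T_X` -/
abbrev TQ : Type := ℚ ⊗[ℤ] X.T.V

/-- The rational endomorphism of an integral one -/
noncomputable def bQ (e : X.T.Hom X.T) : Module.End ℚ X.TQ := e.baseChange ℚ

theorem bQ_add (e f : X.T.Hom X.T) : X.bQ (e + f) = X.bQ e + X.bQ f :=
  LinearMap.baseChange_add e f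

theorem bQ_smul (n : ℤ) (e : X.T.Hom X.T) : X.bQ (n • e) = (n : ℚ) • X.bQ e := by
  rw [bQ, bQ, LinearMap.baseChange_smul]
  refine LinearMap.ext fun x => ?_
  rw [LinearMap.smul_apply, LinearMap.smul_apply]
  exact (Int.cast_smul_eq_zsmul ℚ n _).symm

theorem bQ_comp (e f : X.T.Hom X.T) : X.bQ (e ∘ₗ f) = X.bQ e * X.bQ f := by
  unfold bQ
  rw [LinearMap.baseChange_comp]
  rfl

theorem bQ_id : X.bQ LinearMap.id = 1 := LinearMap.baseChange_id

theorem bQ_zero : X.bQ 0 = 0 := LinearMap.baseChange_zero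

theorem bQ_apply (e : X.T.Hom X.T) (t : X.T.V) :
    X.bQ e ((1 : ℚ) ⊗ₜ[ℤ] t) = (1 : ℚ) ⊗ₜ[ℤ] e t := rfl

/-- The rational Hodge endomorphisms -/
def AQ : Subalgebra ℚ (Module.End ℚ X.TQ) where
  carrier := {g | ∃ (n : ℤ) (e : X.T.Hom X.T), n ≠ 0 ∧ X.InO e ∧ (n : ℚ) • g = X.bQ e}
  mul_mem' := by
    rintro g g' ⟨n, e, hn, he, h⟩ ⟨n', e', hn', he', h'⟩
    refine ⟨n * n', e ∘ₗ e', mul_ne_zero hn hn', X.inO_comp he he', ?_⟩
    rw [bQ_comp, ← h, ← h', smul_mul_smul_comm]
    push_cast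
    rfl
  add_mem' := by
    rintro g g' ⟨n, e, hn, he, h⟩ ⟨n', e', hn', he', h'⟩
    refine ⟨n * n', n' • e + n • e', mul_ne_zero hn hn',
      X.inO_add (X.inO_smul _ he) (X.inO_smul _ he'), ?_⟩
    rw [bQ_add, bQ_smul, bQ_smul, ← h, ← h', smul_add, smul_smul, smul_smul]
    push_cast
    rw [mul_comm (n' : ℚ) n]
  algebraMap_mem' := by
    intro c
    refine ⟨c.den, c.num • LinearMap.id, by exact_mod_cast c.den_nz,
      X.inO_smul _ X.inO_one, ?_⟩
    rw [bQ_smul, bQ_id, Algebra.algebraMap_eq_smul_one, smul_smul]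
    congr 1
    have := Rat.den_mul_eq_num c
    exact_mod_cast this

theorem mem_AQ {g : Module.End ℚ X.TQ} : g ∈ X.AQ ↔ ∃ (n : ℤ) (e : X.T.Hom X.T),
    n ≠ 0 ∧ X.InO e ∧ (n : ℚ) • g = X.bQ e := Iff.rfl

theorem AQ_unit (g : X.AQ) : IsUnit g ∨ g = 0 := by
  obtain ⟨g, n, e, hn, he, h⟩ := g
  by_cases h0 : e = 0
  · right
    apply Subtype.ext
    have hn' : (n : ℚ) ≠ 0 := by exact_mod_cast hn
    rw [h0, bQ_zero] at h
    exact (smul_eq_zero.mp h).resolve_left hn'
  · left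
    obtain ⟨k, e', hk, he', h1, h2⟩ := X.exists_inv he h0
    have hk' : (k : ℚ) ≠ 0 := by exact_mod_cast hk
    have hn' : (n : ℚ) ≠ 0 := by exact_mod_cast hn
    have hmem : ((n : ℚ) / k) • X.bQ e' ∈ X.AQ := by
      refine ⟨k, n • e', hk, X.inO_smul _ he', ?_⟩
      rw [bQ_smul, smul_smul, mul_div_cancel₀ _ hk']
    have h3 : g * (((n : ℚ) / k) • X.bQ e') = 1 := by
      have h4 : g * (((n : ℚ) / k) • X.bQ e') = ((k : ℚ)⁻¹) • (((n : ℚ) • g) * X.bQ e') := by
        rw [mul_smul_comm, smul_mul_assoc, smul_smul, div_eq_inv_mul]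
      rw [h4, h, ← bQ_comp, h1, bQ_smul, bQ_id, smul_smul, inv_mul_cancel₀ hk', one_smul]
    have h5 : (((n : ℚ) / k) • X.bQ e') * g = 1 := by
      have h4 : (((n : ℚ) / k) • X.bQ e') * g = ((k : ℚ)⁻¹) • (X.bQ e' * ((n : ℚ) • g)) := by
        rw [mul_smul_comm, smul_mul_assoc, smul_smul, div_eq_inv_mul]
      rw [h4, h, ← bQ_comp, h2, bQ_smul, bQ_id, smul_smul, inv_mul_cancel₀ hk', one_smul]
    exact ⟨⟨⟨g, n, e, hn, he, h⟩, ⟨_, hmem⟩, Subtype.ext h3, Subtype.ext h5⟩, rfl⟩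

theorem one_tmul_injective : Function.Injective fun t : X.T.V => (1 : ℚ) ⊗ₜ[ℤ] t := by
  have h1 : Function.Injective (LinearMap.rTensor X.T.V (Algebra.linearMap ℤ ℚ)) := by
    apply Module.Flat.rTensor_preserves_injective_linearMap
    intro a b hab
    have : ((a : ℤ) : ℚ) = ((b : ℤ) : ℚ) := hab
    exact_mod_cast this
  intro v w hvw
  have h2 : LinearMap.rTensor X.T.V (Algebra.linearMap ℤ ℚ) ((1 : ℤ) ⊗ₜ v)
      = LinearMap.rTensor X.T.V (Algebra.linearMap ℤ ℚ) ((1 : ℤ) ⊗ₜ w) := by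
    simpa using hvw
  have h3 := h1 h2
  have h4 := congrArg (TensorProduct.lid ℤ X.T.V) h3
  simpa using h4

theorem finrank_TQ : Module.finrank ℚ X.TQ = X.T.rk := Module.finrank_baseChange

instance : Nontrivial X.AQ := by
  refine ⟨⟨0, 1, fun h => ?_⟩⟩
  have h1 : (0 : Module.End ℚ X.TQ) = 1 := congrArg Subtype.val h
  have h2 : X.om ≠ 0 := X.om_ne
  apply h2
  have h3 : (LinearMap.id : X.T.Hom X.T) = 0 := by
    ext t
    apply X.one_tmul_injective
    have := LinearMap.congr_fun h1 ((1 : ℚ) ⊗ₜ[ℤ] t)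
    simpa using this.symm
  rw [← mapC_id X.om, h3, mapC_map_zero]

/-- Either all rational Hodge endomorphisms are scalars or `ℚ ⊗ T_X` is one-dimensional over
them. -/
theorem dichotomy (hp : X.T.rk.Prime) : Module.finrank ℚ X.AQ = 1 ∨
    ∀ v : X.TQ, v ≠ 0 → ∀ w : X.TQ, ∃ g ∈ X.AQ, g v = w := by
  letI : DivisionRing X.AQ := DivisionRing.ofIsUnitOrEqZero X.AQ_unit
  have h1 : Module.finrank ℚ X.AQ * Module.finrank X.AQ X.TQ = Module.finrank ℚ X.TQ :=
    Module.finrank_mul_finrank ℚ X.AQ X.TQ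
  rw [X.finrank_TQ] at h1
  rcases (Nat.dvd_prime hp).mp (Dvd.intro _ h1) with h2 | h2
  · left; exact h2
  · right
    have h3 : Module.finrank X.AQ X.TQ = 1 := by
      rw [h2] at h1
      have := hp.pos
      exact Nat.eq_of_mul_eq_mul_left this (by rw [h1, mul_one])
    intro v hv w
    obtain ⟨g, hg⟩ := (finrank_eq_one_iff_of_nonzero' v hv).mp h3 w
    exact ⟨g, g.2, hg⟩

/-- A multiple of a Hodge endomorphism lies in `O_X`. -/
theorem exists_inO : ∃ N : ℤ, N ≠ 0 ∧ ∀ f : X.T.Hom X.T, X.MorT X.toHLat f → X.InO (N • f) := by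
  obtain ⟨N, hN, hrep⟩ := X.exists_N
  refine ⟨N, hN.ne', fun f hf => ⟨?_, ?_⟩⟩
  · intro p x hx
    have h1 : mapC (N • f : X.T.Hom X.T) x = (N : ℂ) • mapC f x := by
      rw [mapC_map_smul, Int.cast_smul_eq_zsmul]
    rw [h1]
    exact X.isT_smul _ (hf p x hx)
  · intro k t ht t'
    by_cases hk : k = 0
    · subst hk
      have h0 : t = 0 := X.T_nondeg fun t' => zero_dvd_iff.mp (ht t')
      rw [h0, map_zero, Lat.q_zero_left]
    choose c hc using ht
    let l : X.T.V →ₗ[ℤ] ℤ := (AddMonoidHom.mk' c (by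
      intro a b
      have h1 : k * c (a + b) = k * (c a + c b) := by
        rw [← hc, mul_add, ← hc, ← hc, Lat.q_add_right]
      exact mul_left_cancel₀ hk h1)).toIntLinearMap
    obtain ⟨s, hs⟩ := hrep l
    have h2 : k • s = N • t := by
      have h3 : k • s - N • t = 0 := by
        apply X.T_nondeg
        intro t'
        have h4 : l t' = c t' := rfl
        rw [sub_eq_add_neg, Lat.q_add_left, ← neg_one_zsmul, Lat.q_smul_left, Lat.q_smul_left,
          Lat.q_smul_left, hs, hc, h4]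
        ring
      exact sub_eq_zero.mp h3
    have h5 : (N • f) t = k • f s := by
      rw [LinearMap.smul_apply, ← map_smul, ← h2, map_smul]
    rw [h5, Lat.q_smul_left]
    exact dvd_mul_right k _

theorem exists_ne_zero (hp : X.T.rk.Prime) : ∃ (v : X.T.V) (l : X.T.V →ₗ[ℤ] ℤ), l v = 1 := by
  let b := Module.Free.chooseBasis ℤ X.T.V
  have h1 : Fintype.card (Module.Free.ChooseBasisIndex ℤ X.T.V) = X.T.rk :=
    (Module.finrank_eq_card_basis b).symm
  have h2 : 0 < Fintype.card (Module.Free.ChooseBasisIndex ℤ X.T.V) := by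
    rw [h1]; exact hp.pos
  obtain ⟨i⟩ := Fintype.card_pos_iff.mp h2
  exact ⟨b i, b.coord i, by simp⟩

/-- If the rational Hodge endomorphisms are scalars. -/
theorem endZ_of_scalar (hp : X.T.rk.Prime) (h : Module.finrank ℚ X.AQ = 1) : EndZ X.toHLat := by
  intro f hf
  obtain ⟨N, hN, hO⟩ := X.exists_inO
  have he := hO f hf
  have hmem : X.bQ (N • f) ∈ X.AQ := ⟨1, N • f, one_ne_zero, he, by simp⟩
  haveI : Nontrivial (Module.End ℚ X.TQ) :=
    ⟨⟨((0 : X.AQ) : Module.End ℚ X.TQ), ((1 : X.AQ) : Module.End ℚ X.TQ),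
      fun h => zero_ne_one (Subtype.ext h)⟩⟩
  haveI : Module.Free ℚ X.AQ := Module.Free.of_divisionRing ℚ X.AQ
  have hbot : X.AQ = ⊥ := Subalgebra.eq_bot_of_finrank_one h
  rw [hbot, Algebra.mem_bot] at hmem
  obtain ⟨c, hc⟩ := hmem
  have h1 : ∀ t, (c.den : ℤ) • (N • f t) = c.num • t := by
    intro t
    apply X.one_tmul_injective
    have h2 := LinearMap.congr_fun hc ((1 : ℚ) ⊗ₜ[ℤ] t)
    rw [bQ_apply, Module.algebraMap_end_apply] at h2
    have h3 : (1 : ℚ) ⊗ₜ[ℤ] (N • f t) = c • ((1 : ℚ) ⊗ₜ[ℤ] t) := h2.symm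
    have h4 : ∀ (m : ℤ) (s : X.T.V), (1 : ℚ) ⊗ₜ[ℤ] (m • s) = (m : ℚ) • ((1 : ℚ) ⊗ₜ[ℤ] s) := by
      intro m s
      rw [TensorProduct.tmul_smul, Int.cast_smul_eq_zsmul]
    show (1 : ℚ) ⊗ₜ[ℤ] ((c.den : ℤ) • (N • f t)) = (1 : ℚ) ⊗ₜ[ℤ] (c.num • t)
    rw [h4, h3, h4, smul_smul]
    congr 1
    have := Rat.den_mul_eq_num c
    exact_mod_cast this
  obtain ⟨v, l, hl⟩ := X.exists_ne_zero hp
  have h5 : (c.den : ℤ) * N ≠ 0 := mul_ne_zero (by exact_mod_cast c.den_nz) hN
  have h6 : ∀ t, ((c.den : ℤ) * N) • f t = c.num • t := by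
    intro t
    rw [mul_smul]
    exact h1 t
  have h7 : ((c.den : ℤ) * N) * l (f v) = c.num := by
    have := congrArg l (h6 v)
    rw [map_smul, map_smul, hl] at this
    simpa using this
  refine ⟨l (f v), fun t => ?_⟩
  have h8 : ((c.den : ℤ) * N) • (f t - l (f v) • t) = 0 := by
    rw [smul_sub, h6, smul_smul, h7, sub_self]
  exact sub_eq_zero.mp (X.smul_eq_zero_T h5 h8)

theorem qC_adj (hodd : Odd X.T.rk) {e : X.T.Hom X.T} (he : X.InO e) (x y : X.T.C) :
    X.T.qC x (mapC e y) = X.T.qC (mapC e x) y := by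
  have h1 := qC_ext (L := X.T) (M := X.T) (LinearMap.id : X.T.Hom X.T) e e
    (LinearMap.id : X.T.Hom X.T) 1 (fun a b => by rw [one_mul]; exact X.selfadj hodd he a b)
    x y
  rwa [mapC_id, mapC_id, Int.cast_one, one_mul] at h1

/-- In odd rank `ℚ ⊗ T_X` is not one-dimensional over the rational Hodge endomorphisms. -/
theorem not_cyclic (hodd : Odd X.T.rk) (v : X.T.V) (hv : v ≠ 0)
    (h : ∀ w : X.TQ, ∃ g ∈ X.AQ, g ((1 : ℚ) ⊗ₜ[ℤ] v) = w) : False := by
  -- an eigenvector orthogonal to `v` is zero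
  have key : ∀ x : X.T.C, (∀ (e : X.T.Hom X.T) (z : ℂ), X.InO e → mapC e X.om = z • X.om →
      mapC e x = z • x) → X.T.qC (X.T.one v) x = 0 → x = 0 := by
    intro x hx h0
    apply X.T.qC_nondeg X.exists_N
    intro t
    obtain ⟨g, ⟨n, e, hn, he, hg⟩, hgt⟩ := h ((1 : ℚ) ⊗ₜ[ℤ] t)
    have h1 : e v = n • t := by
      apply X.one_tmul_injective
      show (1 : ℚ) ⊗ₜ[ℤ] e v = (1 : ℚ) ⊗ₜ[ℤ] (n • t)
      rw [← X.bQ_apply, ← hg, LinearMap.smul_apply, hgt, TensorProduct.tmul_smul,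
        Int.cast_smul_eq_zsmul]
    obtain ⟨z, hz⟩ := X.exists_eig he
    have h2 : X.T.qC (X.T.one (e v)) x = 0 := by
      rw [← mapC_one, ← X.qC_adj hodd he, hx e z he hz, Lat.qC_smul_right, h0, mul_zero]
    have hn' : (n : ℂ) ≠ 0 := by exact_mod_cast hn
    rw [h1, Lat.one_smul, ← Int.cast_smul_eq_zsmul ℂ, Lat.qC_smul_left] at h2
    exact (mul_eq_zero.mp h2).resolve_left hn'
  have hom : ∀ (e : X.T.Hom X.T) (z : ℂ), X.InO e → mapC e X.om = z • X.om →
      mapC e (X.T.conj X.om) = z • X.T.conj X.om := by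
    intro e z he hz
    rw [← mapC_conj, hz, Lat.conj_smul, X.eig_real hodd he hz]
  by_cases hb : X.T.qC (X.T.one v) X.om = 0
  · exact X.om_ne (key X.om (fun e z _ hz => hz) hb)
  · have h1 := key (X.T.qC (X.T.one v) (X.T.conj X.om) • X.om +
      (-X.T.qC (X.T.one v) X.om) • X.T.conj X.om) (by
        intro e z he hz
        rw [mapC_add, mapC_smul, mapC_smul, hz, hom e z he hz, smul_add, smul_comm z,
          smul_comm z]) (by
        rw [Lat.qC_add_right, Lat.qC_smul_right, Lat.qC_smul_right]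
        ring)
    have h2 := congrArg (fun y => X.T.qC X.om y) h1
    simp only [Lat.qC_add_right, Lat.qC_smul_right, Lat.qC_zero_right] at h2
    have h3 : X.T.qC X.om X.om = 0 := by
      rw [← X.qC_incl]
      exact X.qC_orth X.om_isT X.om_isT (by norm_num)
    rw [h3, mul_zero, zero_add] at h2
    have h4 : X.T.qC X.om (X.T.conj X.om) ≠ 0 := X.c0_ne
    rcases mul_eq_zero.mp h2 with h5 | h5
    · exact hb (neg_eq_zero.mp h5)
    · exact h4 h5

end Coh

/-- **No multiplication in odd prime rank.** -/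
theorem endZ_of_prime (X : Coh) (hp : X.T.rk.Prime) (h2 : X.T.rk ≠ 2) :
    EndZ X.toHLat := by
  rcases X.dichotomy hp with h | h
  · exact X.endZ_of_scalar hp h
  · exfalso
    obtain ⟨v, l, hl⟩ := X.exists_ne_zero hp
    have hv : v ≠ 0 := by
      rintro rfl
      rw [map_zero] at hl
      exact zero_ne_one hl
    refine X.not_cyclic (hp.odd_of_ne_two h2) v hv (h _ ?_)
    intro h0
    apply hv
    apply X.one_tmul_injective
    simpa using h0

end H91.VG
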