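import Pool.Agent.H52.VG.Toy1

/-!
# A toy inhabitant of `VerraData`

Corner test of the fields of `H91.VG.VerraData`: the varieties are pairs `(a, b)` with even
cohomology `V ⊗ ⟨1⟩^a ⟨-1⟩^b`, where `V = ⟨-1⟩⁴` is a Hodge structure of K3 type with
`T_V = ⟨-2⟩²`; there are nontrivial blow-ups in codimension two, and `K₀ = ℤ × ℤ[𝕃]/(𝕃² - 1)`.
One Verra fourfold, the variety `(1, 0)`, and one twisted K3 surface, with Mukai lattice `U⁴`.
Everything is proved except the field `nikulin` (Nikulin's theorem 1.14.4), which is a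
hypothesis.
-/

set_option linter.all false

namespace H52.VG

open scoped TensorProduct
open H91.VG

/-! ## The transcendental lattice -/

theorem mem_hdg' (v : Fin 4 → ℤ) :
    (1 : ℂ) ⊗ₜ[ℤ] v ∈ piece 2 ↔ v 1 = - v 0 ∧ v 3 = - v 2 := by
  rw [mem_piece]
  simp only [Phi_tmul, mul_one]
  constructor
  · rintro (⟨h, -⟩ | ⟨h, -⟩ | ⟨-, h1, h2⟩ | h)
    · norm_num at h
    · norm_num at h
    · exact ⟨by exact_mod_cast h1, by exact_mod_cast h2⟩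
    · have h' : ∀ i, ((v i : ℤ) : ℂ) = 0 := by
        intro i
        have := congrArg (fun x => Phi ℂ 4 x i) h
        simpa [Phi_tmul] using this
      have h'' : ∀ i, v i = 0 := fun i => by exact_mod_cast h' i
      simp [h'']
  · rintro ⟨h1, h2⟩
    refine Or.inr (Or.inr (Or.inl ⟨trivial, ?_, ?_⟩))
    · rw [h1]; push_cast; rfl
    · rw [h2]; push_cast; rfl

theorem mem_hdg (v : Fin 4 → ℤ) : v ∈ hV.hdg ↔ v 1 = - v 0 ∧ v 3 = - v 2 := mem_hdg' v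

theorem mem_tr (t : Fin 4 → ℤ) : t ∈ hV.form.orthogonal hV.hdg ↔ t 1 = t 0 ∧ t 3 = t 2 := by
  constructor
  · intro h
    have h' : ∀ v : Fin 4 → ℤ, v ∈ hV.hdg → qV v t = 0 := h
    have h0 := h' ![1, -1, 0, 0] ((mem_hdg _).mpr (by simp))
    have h1 := h' ![0, 0, 1, -1] ((mem_hdg _).mpr (by simp))
    rw [qV_apply] at h0 h1
    simp at h0 h1
    constructor <;> linarith
  · rintro ⟨h1, h2⟩
    have : ∀ v : Fin 4 → ℤ, v ∈ hV.hdg → qV v t = 0 := by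
      intro v hv
      obtain ⟨g1, g2⟩ := (mem_hdg v).mp hv
      rw [qV_apply, h1, h2, g1, g2]; ring
    exact this

/-- `ℤ⁴ → ℤ⁸` -/
def bigJ : (Fin 4 → ℤ) →ₗ[ℤ] (Fin 8 → ℤ) where
  toFun := fun t => ![t 0, t 2, 0, 0, t 0, t 2, 0, 0]
  map_add' := by
    intro s t
    refine ext8 ?_ ?_ ?_ ?_ ?_ ?_ ?_ ?_ <;> simp
  map_smul' := by
    intro c t
    refine ext8 ?_ ?_ ?_ ?_ ?_ ?_ ?_ ?_ <;> simp

theorem bigJ_apply (t : Fin 4 → ℤ) : bigJ t = ![t 0, t 2, 0, 0, t 0, t 2, 0, 0] := rfl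

theorem Phi_bigJ (x : ℂ ⊗[ℤ] (Fin 4 → ℤ)) :
    Phi ℂ 8 (bigJ.baseChange ℂ x) =
      ![Phi ℂ 4 x 0, Phi ℂ 4 x 2, 0, 0, Phi ℂ 4 x 0, Phi ℂ 4 x 2, 0, 0] := by
  induction x using TensorProduct.induction_on with
  | zero =>
    refine ext8 ?_ ?_ ?_ ?_ ?_ ?_ ?_ ?_ <;> simp
  | add x y hx hy =>
    rw [map_add, map_add, hx, hy]
    refine ext8 ?_ ?_ ?_ ?_ ?_ ?_ ?_ ?_ <;> simp
  | tmul a v =>
    rw [LinearMap.baseChange_tmul]
    refine ext8 ?_ ?_ ?_ ?_ ?_ ?_ ?_ ?_ <;> rw [Phi_tmul] <;> simp [bigJ_apply, Phi_tmul]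

/-- `T_V` in `ℤ⁴` -/
noncomputable def trS : Submodule ℤ (Fin 4 → ℤ) := hV.form.orthogonal hV.hdg

theorem mem_trS (t : Fin 4 → ℤ) : t ∈ trS ↔ t 1 = t 0 ∧ t 3 = t 2 := mem_tr t

/-- coordinates on `T_V` -/
noncomputable def trEquiv : trS ≃ₗ[ℤ] (Fin 2 → ℤ) where
  toFun := fun t => ![t.1 0, t.1 2]
  invFun := fun w => ⟨![w 0, w 0, w 1, w 1], (mem_trS _).mpr ⟨rfl, rfl⟩⟩
  map_add' := by
    intro s t
    funext i; fin_cases i <;> rfl
  map_smul' := by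
    intro c t
    funext i; fin_cases i <;> rfl
  left_inv := by
    intro t
    apply Subtype.ext
    obtain ⟨h1, h2⟩ := (mem_trS t.1).mp t.2
    funext i; fin_cases i
    · rfl
    · exact h1.symm
    · rfl
    · exact h2.symm
  right_inv := by
    intro w
    funext i; fin_cases i <;> rfl

theorem finrank_tr : Module.finrank ℤ trS = 2 := by
  rw [LinearEquiv.finrank_eq trEquiv]
  simp

theorem rk_tr : cohV.T.rk = 2 := finrank_tr

theorem mem_N' (n : Fin 8 → ℤ) : qM.baseChange ℂ ((1 : ℂ) ⊗ₜ[ℤ] n) sigmaM = 0 ↔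
    n 4 = - n 0 ∧ n 5 = - n 1 := by
  rw [qMA]
  simp only [Phi_tmul, sigmaM, LinearEquiv.apply_symm_apply, mul_one]
  simp only [Matrix.cons_val]
  constructor
  · intro h
    have hre := congrArg Complex.re h
    have him := congrArg Complex.im h
    simp at hre him
    have a : (n 0 : ℝ) + n 4 = 0 := by linarith
    have b : (n 1 : ℝ) + n 5 = 0 := by linarith
    have a' : n 0 + n 4 = 0 := by exact_mod_cast a
    have b' : n 1 + n 5 = 0 := by exact_mod_cast b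
    constructor <;> linarith
  · rintro ⟨h1, h2⟩
    rw [h1, h2]; push_cast; ring

theorem mem_N (n : Fin 8 → ℤ) : mukaiM.Alg n ↔ n 4 = - n 0 ∧ n 5 = - n 1 := mem_N' n

/-- `T_V → U⁴` -/
noncomputable def jT : trS →ₗ[ℤ] (Fin 8 → ℤ) := bigJ ∘ₗ trS.subtype

theorem jT_form (s t : trS) : qM (jT s) (jT t) = - qV s.1 t.1 := by
  obtain ⟨s1, s2⟩ := (mem_trS s.1).mp s.2
  obtain ⟨t1, t2⟩ := (mem_trS t.1).mp t.2
  change qM (bigJ s.1) (bigJ t.1) = - qV s.1 t.1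
  rw [qM_apply, qV_apply, bigJ_apply, bigJ_apply, s1, s2, t1, t2]
  simp
  ring

theorem jT_range (m' : Fin 8 → ℤ) :
    (∃ t, jT t = m') ↔ ∀ n : Fin 8 → ℤ, mukaiM.Alg n → qM n m' = 0 := by
  constructor
  · rintro ⟨t, rfl⟩ n hn
    obtain ⟨n1, n2⟩ := (mem_N n).mp hn
    change qM n (bigJ t.1) = 0
    rw [qM_apply, bigJ_apply, n1, n2]
    simp
  · intro h'
    have h0 := h' ![1, 0, 0, 0, -1, 0, 0, 0] ((mem_N _).mpr ⟨rfl, rfl⟩)
    have h1 := h' ![0, 1, 0, 0, 0, -1, 0, 0] ((mem_N _).mpr ⟨rfl, rfl⟩)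
    have h2 := h' ![0, 0, 1, 0, 0, 0, 0, 0] ((mem_N _).mpr ⟨rfl, rfl⟩)
    have h3 := h' ![0, 0, 0, 1, 0, 0, 0, 0] ((mem_N _).mpr ⟨rfl, rfl⟩)
    have h6 := h' ![0, 0, 0, 0, 0, 0, 1, 0] ((mem_N _).mpr ⟨rfl, rfl⟩)
    have h7 := h' ![0, 0, 0, 0, 0, 0, 0, 1] ((mem_N _).mpr ⟨rfl, rfl⟩)
    rw [qM_apply] at h0 h1 h2 h3 h6 h7
    simp at h0 h1 h2 h3 h6 h7
    refine ⟨⟨![m' 0, m' 0, m' 1, m' 1], (mem_trS _).mpr ⟨rfl, rfl⟩⟩, ?_⟩
    change bigJ ![m' 0, m' 0, m' 1, m' 1] = m'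
    rw [bigJ_apply]
    exact ext8 rfl rfl h6.symm h7.symm (by simp; linarith) (by simp; linarith) h2.symm
      h3.symm

theorem jT_hodge (x : ℂ ⊗[ℤ] trS) (hx : trS.subtype.baseChange ℂ x ∈ piece 3) :
    ∃ c : ℂ, jT.baseChange ℂ x = c • sigmaM := by
  set y : ℂ ⊗[ℤ] (Fin 4 → ℤ) := trS.subtype.baseChange ℂ x with hy'
  refine ⟨Phi ℂ 4 y 0, ?_⟩
  have hb : jT.baseChange ℂ x = bigJ.baseChange ℂ y := by
    rw [jT, LinearMap.baseChange_comp]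
    rfl
  rw [hb]
  apply (Phi ℂ 8).injective
  rw [Phi_bigJ, map_smul, sigmaM, LinearEquiv.apply_symm_apply]
  rw [mem_piece] at hx
  have h2 : Phi ℂ 4 y 2 = Complex.I * Phi ℂ 4 y 0 := by
    rcases hx with ⟨-, -, -, h⟩ | ⟨h, -⟩ | ⟨h, -⟩ | h
    · exact h
    · norm_num at h
    · norm_num at h
    · rw [h]; simp
  rw [h2]
  refine ext8 ?_ ?_ ?_ ?_ ?_ ?_ ?_ ?_ <;> simp [mul_comm]

theorem trMukaiT : TrMukai cohV mukaiM := ⟨jT, jT_form, jT_range, jT_hodge⟩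

theorem algMukaiT : AlgMukai mukaiM := by
  refine ⟨(![0, 0, 1, 0, 0, 0, 0, 0] : Fin 8 → ℤ), (![0, 0, 0, 0, 0, 0, 2, 0] : Fin 8 → ℤ),
    (![0, 0, 0, 1, 0, 0, 0, 1] : Fin 8 → ℤ), (mem_N _).mpr ⟨rfl, rfl⟩,
    (mem_N _).mpr ⟨rfl, rfl⟩, (mem_N _).mpr ⟨rfl, rfl⟩, ?_⟩
  change qM _ _ = 0 ∧ qM _ _ = 0 ∧ qM _ _ = 2 ∧ qM _ _ = 2 ∧ qM _ _ = 0 ∧ qM _ _ = 0
  simp only [qM_apply]
  refine ⟨?_, ?_, ?_, ?_, ?_, ?_⟩ <;> simp

/-- The toy inhabitant, one Verra fourfold -/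
noncomputable def toy (hN : Nikulin1144) : VerraData where
  Var := ℕ × ℕ
  K0 := ℤ × Zsqrtd 1
  cls := fun W => (1, ⟨W.1, W.2⟩)
  L := (0, ⟨0, 1⟩)
  P1 := fun W => (W.1 + W.2, W.1 + W.2)
  cls_P1 := by
    intro W
    refine Prod.ext ?_ ?_
    · simp
    · refine Zsqrtd.ext ?_ ?_
      · simp [Zsqrtd.re_mul]
      · simp [Zsqrtd.im_mul]
        ring
  Blow := BlowT
  bittner := bittnerT
  ev := evT
  ev_P1 := evT_P1
  ev_E := by
    rintro W Z B E m (⟨rfl, rfl, rfl⟩ | ⟨rfl, rfl, rfl⟩)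
    · exact bundle_one _
    · exact evT_P1 Z
  ev_B := by
    rintro W Z B E m (⟨rfl, rfl, rfl⟩ | ⟨rfl, rfl, rfl⟩)
    · exact blow_zero _ _
    · exact evT_B W Z
  Verra := Unit
  var := fun _ => (1, 0)
  Iso := fun _ _ => True
  coh := fun _ => cohV
  ev_coh := fun _ => middleT
  K3 := Unit
  mukai := fun _ => mukaiM
  Cat := Unit
  Equiv := fun _ _ => True
  equiv_symm := fun _ => trivial
  equiv_trans := fun _ _ => trivial
  Ku := fun _ => ()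
  Ku4 := fun _ => ()
  ku4_iso := fun _ _ _ => trivial
  Db := fun _ => ()
  assoc := fun _ => ()
  ku_db := fun _ => trivial
  tr_mukai := fun _ => trMukaiT
  alg_mukai := fun _ => algMukaiT
  mukai_iso := fun _ _ => ⟨LinearMap.id, Function.bijective_id, fun _ _ => rfl⟩
  huybrechts_stellari := fun _ _ _ _ => trivial
  nikulin := hN
  torelli := fun _ _ _ _ => trivial

/-- The fields of `VerraData` are consistent with the existence of a Verra fourfold. -/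
theorem nonempty_toy (hN : Nikulin1144) : ∃ D : VerraData, Nonempty D.Verra :=
  ⟨toy hN, ⟨()⟩⟩

/-- There are nontrivial blow-ups, and the affine line is not zero. -/
theorem toy_blow (hN : Nikulin1144) :
    (toy hN).Blow (1, 0) (1, 0) (1, 1) (1, 1) 1 ∧ (toy hN).L ≠ 0 := by
  refine ⟨Or.inr ⟨rfl, rfl, rfl⟩, ?_⟩
  intro h
  have h1 : ((0 : ℤ), (⟨0, 1⟩ : Zsqrtd 1)) = 0 := h
  have h2 := congrArg (fun p => p.2.im) h1
  simp at h2

end H52.VG
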