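import Pool.Agent.H91.VG.Basic

/-!
# A toy inhabitant of `VerraData`

Corner test of the fields of `H91.VG.VerraData`: the varieties are pairs `(a, b)` with even
cohomology `V ⊗ ⟨1⟩^a ⟨-1⟩^b`, where `V = ⟨-1⟩⁴` is a Hodge structure of K3 type with
`T_V = ⟨-2⟩²`; there are nontrivial blow-ups in codimension two, and `K₀ = ℤ × ℤ[𝕃]/(𝕃² - 1)`.
One Verra fourfold, the variety `(1, 0)`, and one twisted K3 surface, with Mukai lattice `U⁴`.
Everything is proved except the field `nikulin` (Nikulin's theorem 1.14.4), which is a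
hypothesis.
-/

set_option linter.all false

namespace H52.VG

open scoped TensorProduct
open H91.VG

/-- coordinates on `A ⊗ ℤⁿ` -/
noncomputable def Phi (A : Type) [CommRing A] (n : ℕ) :
    A ⊗[ℤ] (Fin n → ℤ) ≃ₗ[A] (Fin n → A) :=
  TensorProduct.piScalarRight ℤ A A (Fin n)

theorem Phi_tmul (A : Type) [CommRing A] (n : ℕ) (a : A) (v : Fin n → ℤ) (i : Fin n) :
    Phi A n (a ⊗ₜ[ℤ] v) i = (v i : A) * a := by
  simp [Phi]

theorem bc_apply (A : Type) [CommRing A] (n : ℕ) (M : Matrix (Fin n) (Fin n) ℤ)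
    (x y : A ⊗[ℤ] (Fin n → ℤ)) :
    (Matrix.toBilin' M).baseChange A x y
      = ∑ i, ∑ j, (M i j : A) * Phi A n x i * Phi A n y j := by
  induction x using TensorProduct.induction_on with
  | zero => simp
  | add x x' hx hx' =>
    rw [map_add, LinearMap.add_apply, hx, hx', ← Finset.sum_add_distrib]
    refine Finset.sum_congr rfl fun i _ => ?_
    rw [← Finset.sum_add_distrib]
    refine Finset.sum_congr rfl fun j _ => ?_
    rw [map_add, Pi.add_apply]; ring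
  | tmul a v =>
    induction y using TensorProduct.induction_on with
    | zero => simp
    | add y y' hy hy' =>
      rw [map_add, hy, hy', ← Finset.sum_add_distrib]
      refine Finset.sum_congr rfl fun i _ => ?_
      rw [← Finset.sum_add_distrib]
      refine Finset.sum_congr rfl fun j _ => ?_
      rw [map_add, Pi.add_apply]; ring
    | tmul b w =>
      rw [LinearMap.BilinForm.baseChange_tmul]
      rw [Matrix.toBilin'_apply]
      simp only [Phi_tmul]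
      rw [Finset.sum_smul]
      refine Finset.sum_congr rfl fun i _ => ?_
      rw [Finset.sum_smul]
      refine Finset.sum_congr rfl fun j _ => ?_
      simp only [zsmul_eq_mul, Int.cast_mul]
      ring

theorem Phi_conj (n : ℕ) (x : ℂ ⊗[ℤ] (Fin n → ℤ)) (i : Fin n) :
    Phi ℂ n (H91.VF.conj (Fin n → ℤ) x) i = (starRingEnd ℂ) (Phi ℂ n x i) := by
  induction x using TensorProduct.induction_on with
  | zero => simp
  | add x y hx hy => simp only [map_add, Pi.add_apply, hx, hy]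
  | tmul a v =>
    have : H91.VF.conj (Fin n → ℤ) (a ⊗ₜ[ℤ] v) = (starRingEnd ℂ a) ⊗ₜ[ℤ] v := rfl
    rw [this, Phi_tmul, Phi_tmul, map_mul]
    simp

/-! ## The cohomology -/

/-- The Hodge pieces, in coordinates -/
def pieceC (p : ℤ) : Submodule ℂ (Fin 4 → ℂ) where
  carrier := {z | (p = 3 ∧ z 1 = z 0 ∧ z 3 = z 2 ∧ z 2 = Complex.I * z 0) ∨
    (p = 1 ∧ z 1 = z 0 ∧ z 3 = z 2 ∧ z 2 = -Complex.I * z 0) ∨
    (p = 2 ∧ z 1 = - z 0 ∧ z 3 = - z 2) ∨ z = 0}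
  add_mem' := by
    rintro a b ha hb
    simp only [Set.mem_ofPred_eq] at *
    rcases ha with ⟨h, h1, h2, h3⟩ | ⟨h, h1, h2, h3⟩ | ⟨h, h1, h2⟩ | h
    · rcases hb with ⟨k, k1, k2, k3⟩ | ⟨k, k1, k2, k3⟩ | ⟨k, k1, k2⟩ | k
      · refine Or.inl ⟨h, ?_, ?_, ?_⟩ <;> simp only [Pi.add_apply, h1, h2, h3, k1, k2, k3] <;> ring
      · omega
      · omega
      · subst k; refine Or.inl ⟨h, ?_, ?_, ?_⟩ <;> simp [h1, h2, h3]
    · rcases hb with ⟨k, k1, k2, k3⟩ | ⟨k, k1, k2, k3⟩ | ⟨k, k1, k2⟩ | k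
      · omega
      · refine Or.inr (Or.inl ⟨h, ?_, ?_, ?_⟩) <;>
          simp only [Pi.add_apply, h1, h2, h3, k1, k2, k3] <;> ring
      · omega
      · subst k; refine Or.inr (Or.inl ⟨h, ?_, ?_, ?_⟩) <;> simp [h1, h2, h3]
    · rcases hb with ⟨k, k1, k2, k3⟩ | ⟨k, k1, k2, k3⟩ | ⟨k, k1, k2⟩ | k
      · omega
      · omega
      · refine Or.inr (Or.inr (Or.inl ⟨h, ?_, ?_⟩)) <;>
          simp only [Pi.add_apply, h1, h2, k1, k2] <;> ring
      · subst k; refine Or.inr (Or.inr (Or.inl ⟨h, ?_, ?_⟩)) <;> simp [h1, h2]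
    · subst h; simpa using hb
  zero_mem' := by simp
  smul_mem' := by
    rintro c z hz
    simp only [Set.mem_ofPred_eq] at *
    rcases hz with ⟨h, h1, h2, h3⟩ | ⟨h, h1, h2, h3⟩ | ⟨h, h1, h2⟩ | h
    · refine Or.inl ⟨h, ?_, ?_, ?_⟩ <;> simp only [Pi.smul_apply, smul_eq_mul, h1, h2, h3]
      ring
    · refine Or.inr (Or.inl ⟨h, ?_, ?_, ?_⟩) <;>
        simp only [Pi.smul_apply, smul_eq_mul, h1, h2, h3]
      ring
    · refine Or.inr (Or.inr (Or.inl ⟨h, ?_, ?_⟩)) <;>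
        simp only [Pi.smul_apply, smul_eq_mul, h1, h2] <;> ring
    · subst h; simp

/-- The Hodge pieces -/
noncomputable def piece (p : ℤ) : Submodule ℂ (ℂ ⊗[ℤ] (Fin 4 → ℤ)) :=
  (pieceC p).comap (Phi ℂ 4).toLinearMap

theorem mem_piece (p : ℤ) (x : ℂ ⊗[ℤ] (Fin 4 → ℤ)) :
    x ∈ piece p ↔ (p = 3 ∧ Phi ℂ 4 x 1 = Phi ℂ 4 x 0 ∧ Phi ℂ 4 x 3 = Phi ℂ 4 x 2 ∧
        Phi ℂ 4 x 2 = Complex.I * Phi ℂ 4 x 0) ∨
    (p = 1 ∧ Phi ℂ 4 x 1 = Phi ℂ 4 x 0 ∧ Phi ℂ 4 x 3 = Phi ℂ 4 x 2 ∧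
        Phi ℂ 4 x 2 = -Complex.I * Phi ℂ 4 x 0) ∨
    (p = 2 ∧ Phi ℂ 4 x 1 = - Phi ℂ 4 x 0 ∧ Phi ℂ 4 x 3 = - Phi ℂ 4 x 2) ∨ x = 0 := by
  have : (Phi ℂ 4 x = 0) ↔ x = 0 := (Phi ℂ 4).map_eq_zero_iff
  rw [← this]
  rfl

theorem ext4 {z w : Fin 4 → ℂ} (h0 : z 0 = w 0) (h1 : z 1 = w 1) (h2 : z 2 = w 2)
    (h3 : z 3 = w 3) : z = w := by
  funext i; fin_cases i <;> assumption

/-- coefficient of the `(3,1)` part -/
noncomputable def c3 (z : Fin 4 → ℂ) : ℂ := ((z 0 + z 1) - Complex.I * (z 2 + z 3)) / 4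

/-- coefficient of the `(1,3)` part -/
noncomputable def c1 (z : Fin 4 → ℂ) : ℂ := ((z 0 + z 1) + Complex.I * (z 2 + z 3)) / 4

/-- The three projections in coordinates -/
noncomputable def projC (p : ℤ) : (Fin 4 → ℂ) →ₗ[ℂ] (Fin 4 → ℂ) :=
  if p = 3 then
    { toFun := fun z => ![c3 z, c3 z, c3 z * Complex.I, c3 z * Complex.I]
      map_add' := by
        intro z w
        refine ext4 ?_ ?_ ?_ ?_ <;> simp [c3] <;> ring
      map_smul' := by
        intro c z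
        refine ext4 ?_ ?_ ?_ ?_ <;> simp [c3] <;> ring }
  else if p = 1 then
    { toFun := fun z => ![c1 z, c1 z, -(c1 z * Complex.I), -(c1 z * Complex.I)]
      map_add' := by
        intro z w
        refine ext4 ?_ ?_ ?_ ?_ <;> simp [c1] <;> ring
      map_smul' := by
        intro c z
        refine ext4 ?_ ?_ ?_ ?_ <;> simp [c1] <;> ring }
  else if p = 2 then
    { toFun := fun z => ![(z 0 - z 1) / 2, (z 1 - z 0) / 2, (z 2 - z 3) / 2, (z 3 - z 2) / 2]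
      map_add' := by
        intro z w
        refine ext4 ?_ ?_ ?_ ?_ <;> simp <;> ring
      map_smul' := by
        intro c z
        refine ext4 ?_ ?_ ?_ ?_ <;> simp <;> ring }
  else 0

theorem projC_three (z : Fin 4 → ℂ) :
    projC 3 z = ![c3 z, c3 z, c3 z * Complex.I, c3 z * Complex.I] := by
  simp [projC]

theorem projC_one (z : Fin 4 → ℂ) :
    projC 1 z = ![c1 z, c1 z, -(c1 z * Complex.I), -(c1 z * Complex.I)] := by
  simp [projC]

theorem projC_two (z : Fin 4 → ℂ) : projC 2 z =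
    ![(z 0 - z 1) / 2, (z 1 - z 0) / 2, (z 2 - z 3) / 2, (z 3 - z 2) / 2] := by
  simp [projC]

theorem I2 : Complex.I * Complex.I = -1 := Complex.I_mul_I

theorem projC_self (p : ℤ) (z : Fin 4 → ℂ) (h : z ∈ pieceC p) : projC p z = z := by
  rcases h with ⟨rfl, h1, h2, h3⟩ | ⟨rfl, h1, h2, h3⟩ | ⟨rfl, h1, h2⟩ | rfl
  · have hc : c3 z = z 0 := by
      unfold c3; rw [h1, h2, h3]; linear_combination (-(z 0) / 2) * I2
    rw [projC_three, hc]
    refine ext4 rfl h1.symm ?_ ?_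
    · change z 0 * Complex.I = z 2
      rw [h3, mul_comm]
    · change z 0 * Complex.I = z 3
      rw [h2, h3, mul_comm]
  · have hc : c1 z = z 0 := by
      unfold c1; rw [h1, h2, h3]; linear_combination (-(z 0) / 2) * I2
    rw [projC_one, hc]
    refine ext4 rfl h1.symm ?_ ?_
    · change -(z 0 * Complex.I) = z 2
      rw [h3]; ring
    · change -(z 0 * Complex.I) = z 3
      rw [h2, h3]; ring
  · rw [projC_two]
    refine ext4 ?_ ?_ ?_ ?_ <;> simp [h1, h2] <;> ring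
  · simp

theorem projC_other (p r : ℤ) (hpr : p ≠ r) (z : Fin 4 → ℂ) (h : z ∈ pieceC r) :
    projC p z = 0 := by
  by_cases p3 : p = 3
  · subst p3
    have hz : c3 z = 0 → projC 3 z = 0 := by
      intro hc; rw [projC_three, hc]; refine ext4 ?_ ?_ ?_ ?_ <;> simp
    rcases h with ⟨rfl, h1, h2, h3⟩ | ⟨rfl, h1, h2, h3⟩ | ⟨rfl, h1, h2⟩ | rfl
    · exact absurd rfl hpr
    · apply hz; unfold c3; rw [h1, h2, h3]; linear_combination (z 0 / 2) * I2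
    · apply hz; unfold c3; rw [h1, h2]; ring
    · simp
  by_cases p1 : p = 1
  · subst p1
    have hz : c1 z = 0 → projC 1 z = 0 := by
      intro hc; rw [projC_one, hc]; refine ext4 ?_ ?_ ?_ ?_ <;> simp
    rcases h with ⟨rfl, h1, h2, h3⟩ | ⟨rfl, h1, h2, h3⟩ | ⟨rfl, h1, h2⟩ | rfl
    · apply hz; unfold c1; rw [h1, h2, h3]; linear_combination (z 0 / 2) * I2
    · exact absurd rfl hpr
    · apply hz; unfold c1; rw [h1, h2]; ring
    · simp
  by_cases p2 : p = 2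
  · subst p2
    rcases h with ⟨rfl, h1, h2, h3⟩ | ⟨rfl, h1, h2, h3⟩ | ⟨rfl, h1, h2⟩ | rfl
    · rw [projC_two]; refine ext4 ?_ ?_ ?_ ?_ <;> simp [h1, h2]
    · rw [projC_two]; refine ext4 ?_ ?_ ?_ ?_ <;> simp [h1, h2]
    · exact absurd rfl hpr
    · simp
  · simp [projC, p3, p1, p2]

theorem projC_mem (p : ℤ) (z : Fin 4 → ℂ) : projC p z ∈ pieceC p := by
  by_cases p3 : p = 3
  · subst p3
    rw [projC_three]
    refine Or.inl ⟨rfl, rfl, rfl, ?_⟩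
    change c3 z * Complex.I = Complex.I * c3 z
    ring
  by_cases p1 : p = 1
  · subst p1
    rw [projC_one]
    refine Or.inr (Or.inl ⟨rfl, rfl, rfl, ?_⟩)
    change -(c1 z * Complex.I) = -Complex.I * c1 z
    ring
  by_cases p2 : p = 2
  · subst p2
    rw [projC_two]
    refine Or.inr (Or.inr (Or.inl ⟨rfl, ?_, ?_⟩))
    · change (z 1 - z 0) / 2 = -((z 0 - z 1) / 2)
      ring
    · change (z 3 - z 2) / 2 = -((z 2 - z 3) / 2)
      ring
  · refine Or.inr (Or.inr (Or.inr ?_))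
    simp [projC, p3, p1, p2]

theorem projC_sum (z : Fin 4 → ℂ) : projC 3 z + projC 1 z + projC 2 z = z := by
  rw [projC_three, projC_one, projC_two]
  refine ext4 ?_ ?_ ?_ ?_
  · change c3 z + c1 z + (z 0 - z 1) / 2 = z 0
    unfold c3 c1; ring
  · change c3 z + c1 z + (z 1 - z 0) / 2 = z 1
    unfold c3 c1; ring
  · change c3 z * Complex.I + -(c1 z * Complex.I) + (z 2 - z 3) / 2 = z 2
    unfold c3 c1; linear_combination (-(z 2 + z 3) / 2) * I2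
  · change c3 z * Complex.I + -(c1 z * Complex.I) + (z 3 - z 2) / 2 = z 3
    unfold c3 c1; linear_combination (-(z 2 + z 3) / 2) * I2

/-- The projection on `ℂ ⊗ V` -/
noncomputable def proj (p : ℤ) : (ℂ ⊗[ℤ] (Fin 4 → ℤ)) →ₗ[ℂ] (ℂ ⊗[ℤ] (Fin 4 → ℤ)) :=
  (Phi ℂ 4).symm.toLinearMap ∘ₗ projC p ∘ₗ (Phi ℂ 4).toLinearMap

theorem proj_self (p : ℤ) (x : ℂ ⊗[ℤ] (Fin 4 → ℤ)) (h : x ∈ piece p) : proj p x = x := by
  have h' : Phi ℂ 4 x ∈ pieceC p := h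
  simp only [proj, LinearMap.comp_apply, LinearEquiv.coe_coe]
  rw [projC_self p _ h', LinearEquiv.symm_apply_apply]

theorem proj_other (p r : ℤ) (hpr : p ≠ r) (x : ℂ ⊗[ℤ] (Fin 4 → ℤ)) (h : x ∈ piece r) :
    proj p x = 0 := by
  have h' : Phi ℂ 4 x ∈ pieceC r := h
  simp only [proj, LinearMap.comp_apply, LinearEquiv.coe_coe]
  rw [projC_other p r hpr _ h', map_zero]

theorem proj_mem (p : ℤ) (x : ℂ ⊗[ℤ] (Fin 4 → ℤ)) : proj p x ∈ piece p := by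
  simp only [proj, LinearMap.comp_apply, LinearEquiv.coe_coe, piece, Submodule.mem_comap,
    LinearEquiv.apply_symm_apply]
  exact projC_mem p _

theorem proj_sum (x : ℂ ⊗[ℤ] (Fin 4 → ℤ)) : proj 3 x + proj 1 x + proj 2 x = x := by
  apply (Phi ℂ 4).injective
  simp only [proj, LinearMap.comp_apply, LinearEquiv.coe_coe, map_add,
    LinearEquiv.apply_symm_apply]
  exact projC_sum _

theorem internal : DirectSum.IsInternal piece := by
  apply DirectSum.isInternal_submodule_of_iSupIndep_of_iSup_eq_top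
  · intro p
    rw [Submodule.disjoint_def]
    intro x hx hx'
    have hle : (⨆ j, ⨆ (_ : j ≠ p), piece j) ≤ LinearMap.ker (proj p) := by
      refine iSup_le fun j => iSup_le fun hj => ?_
      intro y hy
      exact proj_other p j (Ne.symm hj) y hy
    have h0 : proj p x = 0 := hle hx'
    rw [← proj_self p x hx, h0]
  · rw [eq_top_iff]
    intro x _
    rw [← proj_sum x]
    refine Submodule.add_mem _ (Submodule.add_mem _ ?_ ?_) ?_
    · exact Submodule.mem_iSup_of_mem 3 (proj_mem 3 x)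
    · exact Submodule.mem_iSup_of_mem 1 (proj_mem 1 x)
    · exact Submodule.mem_iSup_of_mem 2 (proj_mem 2 x)

theorem conj_piece (p : ℤ) (x : ℂ ⊗[ℤ] (Fin 4 → ℤ)) (h : x ∈ piece p) :
    H91.VF.conj (Fin 4 → ℤ) x ∈ piece (4 - p) := by
  rw [mem_piece] at h ⊢
  simp only [Phi_conj]
  rcases h with ⟨rfl, h1, h2, h3⟩ | ⟨rfl, h1, h2, h3⟩ | ⟨rfl, h1, h2⟩ | rfl
  · refine Or.inr (Or.inl ⟨by norm_num, ?_, ?_, ?_⟩)
    · rw [h1]
    · rw [h2]
    · rw [h3, map_mul, Complex.conj_I]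
  · refine Or.inl ⟨by norm_num, ?_, ?_, ?_⟩
    · rw [h1]
    · rw [h2]
    · rw [h3, map_mul, map_neg, Complex.conj_I, neg_neg]
  · refine Or.inr (Or.inr (Or.inl ⟨by norm_num, ?_, ?_⟩))
    · rw [h1, map_neg]
    · rw [h2, map_neg]
  · simp

/-- The form `-∑ xᵢ yᵢ` -/
noncomputable def qV : LinearMap.BilinForm ℤ (Fin 4 → ℤ) := Matrix.toBilin' (-1)

theorem qV_apply (x y : Fin 4 → ℤ) :
    qV x y = -(x 0 * y 0 + x 1 * y 1 + x 2 * y 2 + x 3 * y 3) := by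
  simp [qV, Matrix.toBilin'_apply, Fin.sum_univ_four, Matrix.one_apply]

theorem qVC (x y : ℂ ⊗[ℤ] (Fin 4 → ℤ)) :
    qV.baseChange ℂ x y = -(Phi ℂ 4 x 0 * Phi ℂ 4 y 0 + Phi ℂ 4 x 1 * Phi ℂ 4 y 1 +
      Phi ℂ 4 x 2 * Phi ℂ 4 y 2 + Phi ℂ 4 x 3 * Phi ℂ 4 y 3) := by
  rw [qV, bc_apply]
  simp [Fin.sum_univ_four, Matrix.one_apply]

/-- The classes `a₁, a₂, a₃` -/
def aV : Fin 3 → (Fin 4 → ℤ) := ![![1, -1, 0, 0], ![0, 0, 1, -1], 0]

/-- The lattice `⟨-1⟩⁴` -/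
noncomputable def latV : H91.VG.Lat where
  V := Fin 4 → ℤ
  form := qV
  symm := by intro x y; rw [qV_apply, qV_apply]; ring

theorem nondegV (x : Fin 4 → ℤ) (hx' : ∀ y : Fin 4 → ℤ, qV x y = 0) : x = 0 := by
  have h0 := hx' ![1, 0, 0, 0]
  have h1 := hx' ![0, 1, 0, 0]
  have h2 := hx' ![0, 0, 1, 0]
  have h3 := hx' ![0, 0, 0, 1]
  rw [qV_apply] at h0 h1 h2 h3
  simp at h0 h1 h2 h3
  funext i; fin_cases i <;> simp [h0, h1, h2, h3]

theorem repV (l' : (Fin 4 → ℤ) →ₗ[ℤ] ℤ) : ∃ v : Fin 4 → ℤ, ∀ w, qV v w = l' w := by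
  refine ⟨(fun i => - l' (Pi.single i 1) : Fin 4 → ℤ), ?_⟩
  intro w'
  rw [qV_apply]
  have hw : w' = ∑ i, w' i • (Pi.single i 1 : Fin 4 → ℤ) := by
    funext j
    simp [Finset.sum_apply, Pi.single_apply]
  conv_rhs => rw [hw]
  rw [map_sum]
  simp only [map_smul, smul_eq_mul, Fin.sum_univ_four]
  ring

theorem unimodV : latV.Unimod := ⟨nondegV, repV⟩

theorem one_piece : Module.finrank ℂ (piece 3) = 1 := by
  have h : piece 3 = Submodule.span ℂ {(Phi ℂ 4).symm ![1, 1, Complex.I, Complex.I]} := by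
    ext x
    rw [Submodule.mem_span_singleton, mem_piece]
    constructor
    · rintro (⟨-, h1, h2, h3⟩ | ⟨h, -⟩ | ⟨h, -⟩ | rfl)
      · refine ⟨Phi ℂ 4 x 0, ?_⟩
        apply (Phi ℂ 4).injective
        rw [map_smul, LinearEquiv.apply_symm_apply]
        refine ext4 ?_ ?_ ?_ ?_
        · simp
        · simp [h1]
        · simp [h3, mul_comm]
        · simp [h2, h3, mul_comm]
      · norm_num at h
      · norm_num at h
      · exact ⟨0, by simp⟩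
    · rintro ⟨c, rfl⟩
      refine Or.inl ⟨rfl, ?_, ?_, ?_⟩ <;>
        rw [map_smul, LinearEquiv.apply_symm_apply] <;> simp
      ring
  rw [h]
  apply finrank_span_singleton
  intro h0
  have h1 : (![1, 1, Complex.I, Complex.I] : Fin 4 → ℂ) = 0 := by
    have := congrArg (Phi ℂ 4) h0
    rwa [LinearEquiv.apply_symm_apply, map_zero] at this
  have h2 := congrFun h1 0
  simp at h2

theorem eq_zero_of (x : ℂ ⊗[ℤ] (Fin 4 → ℤ)) (h0 : Phi ℂ 4 x 0 = 0) (h1 : Phi ℂ 4 x 1 = 0)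
    (h2 : Phi ℂ 4 x 2 = 0) (h3 : Phi ℂ 4 x 3 = 0) : x = 0 := by
  apply (Phi ℂ 4).injective
  rw [map_zero]
  exact ext4 h0 h1 h2 h3

theorem nsq (z : ℂ) : z * (starRingEnd ℂ) z = ((Complex.normSq z : ℝ) : ℂ) := by
  rw [Complex.mul_conj]

theorem aV_zero : aV 0 = ![1, -1, 0, 0] := rfl
theorem aV_one : aV 1 = ![0, 0, 1, -1] := rfl

/-- The polarization -/
noncomputable def QV : LinearMap.BilinForm ℤ (Fin 4 → ℤ) :=
  Matrix.toBilin' (!![0, -1, 0, 0; -1, 0, 0, 0; 0, 0, 0, -1; 0, 0, -1, 0])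

theorem QV_apply (x y : Fin 4 → ℤ) :
    QV x y = -(x 0 * y 1 + x 1 * y 0 + x 2 * y 3 + x 3 * y 2) := by
  simp [QV, Matrix.toBilin'_apply, Fin.sum_univ_four]
  ring

theorem QVC (x y : ℂ ⊗[ℤ] (Fin 4 → ℤ)) :
    QV.baseChange ℂ x y = -(Phi ℂ 4 x 0 * Phi ℂ 4 y 1 + Phi ℂ 4 x 1 * Phi ℂ 4 y 0 +
      Phi ℂ 4 x 2 * Phi ℂ 4 y 3 + Phi ℂ 4 x 3 * Phi ℂ 4 y 2) := by
  rw [QV, bc_apply]
  simp [Fin.sum_univ_four]
  ring

theorem QV_symm (x y : Fin 4 → ℤ) : QV x y = QV y x := by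
  rw [QV_apply, QV_apply]; ring

theorem orthV (p r : ℤ) (x y : ℂ ⊗[ℤ] (Fin 4 → ℤ)) (hx : x ∈ piece p) (hy : y ∈ piece r)
    (hpr : p + r ≠ 4) : qV.baseChange ℂ x y = 0 := by
  rw [qVC]
  have hx' := (mem_piece p x).mp hx
  have hy' := (mem_piece r y).mp hy
  rcases hx' with ⟨rfl, a1, a2, a3⟩ | ⟨rfl, a1, a2, a3⟩ | ⟨rfl, a1, a2⟩ | rfl
  · rcases hy' with ⟨rfl, b1, b2, b3⟩ | ⟨rfl, b1, b2, b3⟩ | ⟨rfl, b1, b2⟩ | rfl
    · rw [a1, a2, a3, b1, b2, b3]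
      linear_combination (-2 * Phi ℂ 4 x 0 * Phi ℂ 4 y 0) * I2
    · exact absurd (by norm_num) hpr
    · rw [a1, a2, a3, b1, b2]; ring
    · simp
  · rcases hy' with ⟨rfl, b1, b2, b3⟩ | ⟨rfl, b1, b2, b3⟩ | ⟨rfl, b1, b2⟩ | rfl
    · exact absurd (by norm_num) hpr
    · rw [a1, a2, a3, b1, b2, b3]
      linear_combination (-2 * Phi ℂ 4 x 0 * Phi ℂ 4 y 0) * I2
    · rw [a1, a2, a3, b1, b2]; ring
    · simp
  · rcases hy' with ⟨rfl, b1, b2, b3⟩ | ⟨rfl, b1, b2, b3⟩ | ⟨rfl, b1, b2⟩ | rfl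
    · rw [a1, a2, b1, b2, b3]; ring
    · rw [a1, a2, b1, b2, b3]; ring
    · exact absurd (by norm_num) hpr
    · simp
  · simp

theorem orthQ (p r : ℤ) (x y : ℂ ⊗[ℤ] (Fin 4 → ℤ)) (hx : x ∈ piece p) (hy : y ∈ piece r)
    (hpr : p + r ≠ 4) : QV.baseChange ℂ x y = 0 := by
  rw [QVC]
  have hx' := (mem_piece p x).mp hx
  have hy' := (mem_piece r y).mp hy
  rcases hx' with ⟨rfl, a1, a2, a3⟩ | ⟨rfl, a1, a2, a3⟩ | ⟨rfl, a1, a2⟩ | rfl
  · rcases hy' with ⟨rfl, b1, b2, b3⟩ | ⟨rfl, b1, b2, b3⟩ | ⟨rfl, b1, b2⟩ | rfl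
    · rw [a1, a2, a3, b1, b2, b3]
      linear_combination (-2 * Phi ℂ 4 x 0 * Phi ℂ 4 y 0) * I2
    · exact absurd (by norm_num) hpr
    · rw [a1, a2, a3, b1, b2]; ring
    · simp
  · rcases hy' with ⟨rfl, b1, b2, b3⟩ | ⟨rfl, b1, b2, b3⟩ | ⟨rfl, b1, b2⟩ | rfl
    · exact absurd (by norm_num) hpr
    · rw [a1, a2, a3, b1, b2, b3]
      linear_combination (-2 * Phi ℂ 4 x 0 * Phi ℂ 4 y 0) * I2
    · rw [a1, a2, a3, b1, b2]; ring
    · simp
  · rcases hy' with ⟨rfl, b1, b2, b3⟩ | ⟨rfl, b1, b2, b3⟩ | ⟨rfl, b1, b2⟩ | rfl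
    · rw [a1, a2, b1, b2, b3]; ring
    · rw [a1, a2, b1, b2, b3]; ring
    · exact absurd (by norm_num) hpr
    · simp
  · simp

/-- `(-1)^p Q(x, conj x) > 0` -/
theorem posQ (p : ℤ) (x : ℂ ⊗[ℤ] (Fin 4 → ℤ)) (hx : x ∈ piece p) (hx0 : x ≠ 0) :
    ∃ r : ℝ, 0 < r ∧
      (-1 : ℂ) ^ p * QV.baseChange ℂ x (H91.VF.conj (Fin 4 → ℤ) x) = (r : ℂ) := by
  rw [QVC]
  simp only [Phi_conj]
  have hx' := (mem_piece p x).mp hx
  have m3 : ((-1 : ℂ)) ^ (3 : ℤ) = -1 := by norm_num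
  have m2 : ((-1 : ℂ)) ^ (2 : ℤ) = 1 := by norm_num
  have m1 : ((-1 : ℂ)) ^ (1 : ℤ) = -1 := by norm_num
  rcases hx' with ⟨rfl, a1, a2, a3⟩ | ⟨rfl, a1, a2, a3⟩ | ⟨rfl, a1, a2⟩ | h
  · refine ⟨4 * Complex.normSq (Phi ℂ 4 x 0), ?_, ?_⟩
    · have : Phi ℂ 4 x 0 ≠ 0 := by
        intro h0
        apply hx0
        refine eq_zero_of x h0 (by rw [a1, h0]) (by rw [a3, h0, mul_zero])
          (by rw [a2, a3, h0, mul_zero])
      have := Complex.normSq_pos.mpr this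
      linarith
    · rw [a1, a2, a3, map_mul, Complex.conj_I, m3]
      push_cast
      rw [← nsq]
      linear_combination (-2 * Phi ℂ 4 x 0 * (starRingEnd ℂ) (Phi ℂ 4 x 0)) * I2
  · refine ⟨4 * Complex.normSq (Phi ℂ 4 x 0), ?_, ?_⟩
    · have : Phi ℂ 4 x 0 ≠ 0 := by
        intro h0
        apply hx0
        refine eq_zero_of x h0 (by rw [a1, h0]) (by rw [a3, h0, mul_zero])
          (by rw [a2, a3, h0, mul_zero])
      have := Complex.normSq_pos.mpr this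
      linarith
    · rw [a1, a2, a3, map_mul, map_neg, Complex.conj_I, m1]
      push_cast
      rw [← nsq]
      linear_combination (-2 * Phi ℂ 4 x 0 * (starRingEnd ℂ) (Phi ℂ 4 x 0)) * I2
  · refine ⟨2 * Complex.normSq (Phi ℂ 4 x 0) + 2 * Complex.normSq (Phi ℂ 4 x 2), ?_, ?_⟩
    · by_cases h0 : Phi ℂ 4 x 0 = 0
      · have h2 : Phi ℂ 4 x 2 ≠ 0 := by
          intro h2
          exact hx0 (eq_zero_of x h0 (by rw [a1, h0, neg_zero]) h2 (by rw [a2, h2, neg_zero]))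
        have := Complex.normSq_pos.mpr h2
        have := Complex.normSq_nonneg (Phi ℂ 4 x 0)
        linarith
      · have := Complex.normSq_pos.mpr h0
        have := Complex.normSq_nonneg (Phi ℂ 4 x 2)
        linarith
    · rw [a1, a2, map_neg, map_neg, m2]
      push_cast
      rw [← nsq, ← nsq]
      ring
  · exact absurd h hx0

/-- The Hodge lattice `V` -/
noncomputable def hV : HLat where
  toLat := latV
  H := piece
  internal := internal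
  conj_mem := conj_piece
  unimod := unimodV
  orth := orthV
  polarizable := ⟨QV, QV_symm, orthQ, posQ⟩

theorem levelV (p : ℤ) (h1 : p ≠ 1) (h2 : p ≠ 2) (h3 : p ≠ 3) : piece p = ⊥ := by
  rw [eq_bot_iff]
  intro x hx
  rw [mem_piece] at hx
  rcases hx with ⟨h, -⟩ | ⟨h, -⟩ | ⟨h, -⟩ | h
  · exact absurd h h3
  · exact absurd h h1
  · exact absurd h h2
  · exact h

theorem negV (x : ℂ ⊗[ℤ] (Fin 4 → ℤ)) (hx : x ∈ piece 3) (hx0 : x ≠ 0) :
    ∃ r : ℝ, 0 < r ∧ qV.baseChange ℂ x (H91.VF.conj (Fin 4 → ℤ) x) = -(r : ℂ) := by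
  have hx' := (mem_piece 3 x).mp hx
  rcases hx' with ⟨-, a1, a2, a3⟩ | ⟨h, -⟩ | ⟨h, -⟩ | h
  · refine ⟨4 * Complex.normSq (Phi ℂ 4 x 0), ?_, ?_⟩
    · have : Phi ℂ 4 x 0 ≠ 0 := by
        intro h0
        apply hx0
        refine eq_zero_of x h0 (by rw [a1, h0]) (by rw [a3, h0, mul_zero])
          (by rw [a2, a3, h0, mul_zero])
      have := Complex.normSq_pos.mpr this
      linarith
    · rw [qVC]
      simp only [Phi_conj]
      rw [a1, a2, a3, map_mul, Complex.conj_I]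
      push_cast
      rw [← nsq]
      linear_combination (2 * Phi ℂ 4 x 0 * (starRingEnd ℂ) (Phi ℂ 4 x 0)) * I2
  · norm_num at h
  · norm_num at h
  · exact absurd h hx0

theorem aV_hodge (i : Fin 3) : (1 : ℂ) ⊗ₜ[ℤ] aV i ∈ piece 2 := by
  rw [mem_piece]
  refine Or.inr (Or.inr (Or.inl ⟨rfl, ?_, ?_⟩)) <;> simp only [Phi_tmul] <;>
    fin_cases i <;> simp [aV]

theorem posV (x : ℂ ⊗[ℤ] (Fin 4 → ℤ)) (hx : x ∈ piece 2)
    (ha : ∀ i, qV.baseChange ℂ ((1 : ℂ) ⊗ₜ[ℤ] aV i) x = 0) : x = 0 := by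
  have h0 := ha 0
  have h1 := ha 1
  rw [qVC] at h0 h1
  simp only [Phi_tmul, aV_zero, aV_one] at h0 h1
  simp at h0 h1
  have hx' := (mem_piece 2 x).mp hx
  rcases hx' with ⟨h, -⟩ | ⟨h, -⟩ | ⟨-, a1, a2⟩ | h
  · norm_num at h
  · norm_num at h
  · rw [a1] at h0
    rw [a2] at h1
    have e0 : Phi ℂ 4 x 0 = 0 := by linear_combination (-1 / 2 : ℂ) * h0
    have e2 : Phi ℂ 4 x 2 = 0 := by linear_combination (-1 / 2 : ℂ) * h1
    exact eq_zero_of x e0 (by rw [a1, e0, neg_zero]) e2 (by rw [a2, e2, neg_zero])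
  · exact h

/-- The cohomology of the toy fourfold -/
noncomputable def cohV : Coh where
  toHLat := hV
  level := levelV
  one_dim := one_piece
  neg := negV
  a := aV
  a_hodge := aV_hodge
  pos := fun x hx ha hx0 => absurd (posV x hx ha) hx0

/-! ## The Mukai lattice -/

/-- The Gram matrix of `U⁴`, basis `e₁, …, e₄, f₁, …, f₄` -/
def PM : Matrix (Fin 8) (Fin 8) ℤ := Matrix.of fun i j => if j = i + 4 then 1 else 0

/-- The form of `U⁴` -/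
noncomputable def qM : LinearMap.BilinForm ℤ (Fin 8 → ℤ) := Matrix.toBilin' PM

theorem sumPM (A : Type) [CommRing A] (x y : Fin 8 → A) :
    ∑ i, ∑ j, (PM i j : A) * x i * y j = x 0 * y 4 + x 1 * y 5 + x 2 * y 6 + x 3 * y 7 +
      x 4 * y 0 + x 5 * y 1 + x 6 * y 2 + x 7 * y 3 := by
  have h : ∀ i, ∑ j, (PM i j : A) * x i * y j = x i * y (i + 4) := by
    intro i
    rw [Finset.sum_eq_single (i + 4)]
    · simp [PM]
    · intro j _ hj; simp [PM, hj]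
    · simp
  rw [Finset.sum_congr rfl fun i _ => h i]
  simp only [Fin.sum_univ_eight]
  rfl

theorem qM_apply (x y : Fin 8 → ℤ) :
    qM x y = x 0 * y 4 + x 1 * y 5 + x 2 * y 6 + x 3 * y 7 +
      x 4 * y 0 + x 5 * y 1 + x 6 * y 2 + x 7 * y 3 := by
  rw [qM, Matrix.toBilin'_apply, ← sumPM ℤ x y]
  refine Finset.sum_congr rfl fun i _ => Finset.sum_congr rfl fun j _ => ?_
  simp only [Int.cast_id]; ring

theorem qMA (A : Type) [CommRing A] (x y : A ⊗[ℤ] (Fin 8 → ℤ)) :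
    qM.baseChange A x y = Phi A 8 x 0 * Phi A 8 y 4 + Phi A 8 x 1 * Phi A 8 y 5 +
      Phi A 8 x 2 * Phi A 8 y 6 + Phi A 8 x 3 * Phi A 8 y 7 + Phi A 8 x 4 * Phi A 8 y 0 +
      Phi A 8 x 5 * Phi A 8 y 1 + Phi A 8 x 6 * Phi A 8 y 2 + Phi A 8 x 7 * Phi A 8 y 3 := by
  rw [qM, bc_apply, sumPM]

theorem ext8 {A : Type} {z w : Fin 8 → A} (h0 : z 0 = w 0) (h1 : z 1 = w 1) (h2 : z 2 = w 2)
    (h3 : z 3 = w 3) (h4 : z 4 = w 4) (h5 : z 5 = w 5) (h6 : z 6 = w 6) (h7 : z 7 = w 7) :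
    z = w := by
  funext i; fin_cases i <;> assumption

/-- The lattice `U⁴` -/
noncomputable def latM : H91.VG.Lat where
  V := Fin 8 → ℤ
  form := qM
  symm := by intro x y; rw [qM_apply, qM_apply]; ring

theorem evenM' (x' : Fin 8 → ℤ) : 2 ∣ qM x' x' := by
  rw [qM_apply]
  exact ⟨x' 0 * x' 4 + x' 1 * x' 5 + x' 2 * x' 6 + x' 3 * x' 7, by ring⟩

theorem evenM : latM.Even := evenM'

theorem nondegM (x : Fin 8 → ℤ) (hx' : ∀ y : Fin 8 → ℤ, qM x y = 0) : x = 0 := by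
  have h0 := hx' (Pi.single 0 1)
  have h1 := hx' (Pi.single 1 1)
  have h2 := hx' (Pi.single 2 1)
  have h3 := hx' (Pi.single 3 1)
  have h4 := hx' (Pi.single 4 1)
  have h5 := hx' (Pi.single 5 1)
  have h6 := hx' (Pi.single 6 1)
  have h7 := hx' (Pi.single 7 1)
  rw [qM_apply] at h0 h1 h2 h3 h4 h5 h6 h7
  simp [Pi.single_apply] at h0 h1 h2 h3 h4 h5 h6 h7
  exact ext8 h4 h5 h6 h7 h0 h1 h2 h3

theorem repM (l' : (Fin 8 → ℤ) →ₗ[ℤ] ℤ) : ∃ v : Fin 8 → ℤ, ∀ w, qM v w = l' w := by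
  refine ⟨(fun i => l' (Pi.single (i + 4) 1) : Fin 8 → ℤ), ?_⟩
  intro w'
  rw [qM_apply]
  have hw : w' = ∑ i, w' i • (Pi.single i 1 : Fin 8 → ℤ) := by
    funext j
    simp [Finset.sum_apply, Pi.single_apply]
  conv_rhs => rw [hw]
  rw [map_sum]
  simp only [map_smul, smul_eq_mul, Fin.sum_univ_eight]
  have e0 : (0 : Fin 8) + 4 = 4 := rfl
  have e1 : (1 : Fin 8) + 4 = 5 := rfl
  have e2 : (2 : Fin 8) + 4 = 6 := rfl
  have e3 : (3 : Fin 8) + 4 = 7 := rfl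
  have e4 : (4 : Fin 8) + 4 = 0 := rfl
  have e5 : (5 : Fin 8) + 4 = 1 := rfl
  have e6 : (6 : Fin 8) + 4 = 2 := rfl
  have e7 : (7 : Fin 8) + 4 = 3 := rfl
  rw [e0, e1, e2, e3, e4, e5, e6, e7]
  ring

theorem unimodM : latM.Unimod := ⟨nondegM, repM⟩

/-- `σ = (e₁ + f₁) + i (e₂ + f₂)` -/
noncomputable def sigmaM : ℂ ⊗[ℤ] (Fin 8 → ℤ) :=
  (Phi ℂ 8).symm ![1, Complex.I, 0, 0, 1, Complex.I, 0, 0]

/-- the frame `e_k + f_k` -/
noncomputable def frameM (k : Fin 4) : ℝ ⊗[ℤ] (Fin 8 → ℤ) :=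
  (Phi ℝ 8).symm (![![1, 0, 0, 0, 1, 0, 0, 0], ![0, 1, 0, 0, 0, 1, 0, 0],
    ![0, 0, 1, 0, 0, 0, 1, 0], ![0, 0, 0, 1, 0, 0, 0, 1]] k)

theorem Phi_frame (k : Fin 4) : Phi ℝ 8 (frameM k) = ![![1, 0, 0, 0, 1, 0, 0, 0],
    ![0, 1, 0, 0, 0, 1, 0, 0], ![0, 0, 1, 0, 0, 0, 1, 0], ![0, 0, 0, 1, 0, 0, 0, 1]] k := by
  rw [frameM, LinearEquiv.apply_symm_apply]

theorem framePos (c : Fin 4 → ℝ) (hc : c ≠ 0) :
    0 < qM.baseChange ℝ (∑ i, c i • frameM i) (∑ i, c i • frameM i) := by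
  have hs : Phi ℝ 8 (∑ i, c i • frameM i) = ![c 0, c 1, c 2, c 3, c 0, c 1, c 2, c 3] := by
    rw [map_sum]
    simp only [map_smul, Phi_frame, Fin.sum_univ_four]
    refine ext8 ?_ ?_ ?_ ?_ ?_ ?_ ?_ ?_ <;> simp
  rw [qMA, hs]
  have h : ∃ i, c i ≠ 0 := Function.ne_iff.mp hc
  change 0 < c 0 * c 0 + c 1 * c 1 + c 2 * c 2 + c 3 * c 3 + c 0 * c 0 + c 1 * c 1 +
    c 2 * c 2 + c 3 * c 3
  obtain ⟨i, hi⟩ := h
  have h0 := mul_self_nonneg (c 0)
  have h1 := mul_self_nonneg (c 1)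
  have h2 := mul_self_nonneg (c 2)
  have h3 := mul_self_nonneg (c 3)
  have hp : 0 < c i * c i := mul_self_pos.mpr hi
  have hle : c i * c i ≤ ∑ j, c j * c j :=
    Finset.single_le_sum (f := fun j => c j * c j) (fun j _ => mul_self_nonneg _)
      (Finset.mem_univ i)
  rw [Fin.sum_univ_four] at hle
  linarith

theorem frameNeg (x : ℝ ⊗[ℤ] (Fin 8 → ℤ)) (hx : ∀ i, qM.baseChange ℝ (frameM i) x = 0)
    (hx0 : x ≠ 0) : qM.baseChange ℝ x x < 0 := by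
  have h0 := hx 0
  have h1 := hx 1
  have h2 := hx 2
  have h3 := hx 3
  rw [qMA, Phi_frame] at h0 h1 h2 h3
  simp at h0 h1 h2 h3
  rw [qMA]
  set z := Phi ℝ 8 x with hz
  have k0 : z 4 = - z 0 := by linarith
  have k1 : z 5 = - z 1 := by linarith
  have k2 : z 6 = - z 2 := by linarith
  have k3 : z 7 = - z 3 := by linarith
  rw [k0, k1, k2, k3]
  have hne : ¬ (z 0 = 0 ∧ z 1 = 0 ∧ z 2 = 0 ∧ z 3 = 0) := by
    rintro ⟨a0, a1, a2, a3⟩
    apply hx0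
    have : z = 0 := ext8 a0 a1 a2 a3 (by rw [k0, a0]; simp) (by rw [k1, a1]; simp)
      (by rw [k2, a2]; simp) (by rw [k3, a3]; simp)
    exact (Phi ℝ 8).map_eq_zero_iff.mp this
  by_contra hcon
  apply hne
  have g0 := mul_self_nonneg (z 0)
  have g1 := mul_self_nonneg (z 1)
  have g2 := mul_self_nonneg (z 2)
  have g3 := mul_self_nonneg (z 3)
  refine ⟨mul_self_eq_zero.mp ?_, mul_self_eq_zero.mp ?_, mul_self_eq_zero.mp ?_,
    mul_self_eq_zero.mp ?_⟩ <;> nlinarith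

/-- The Mukai lattice of the toy twisted K3 surface -/
noncomputable def mukaiM : Mukai where
  toLat := latM
  even := evenM
  unimod := unimodM
  σ := sigmaM
  frame := frameM
  frame_pos := framePos
  frame_neg := frameNeg

end H52.VG
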