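import Pool.Agent.H52.VG.Toy0

/-!
# A toy inhabitant of `VerraData`: the varieties
-/

set_option linter.all false

namespace H52.VG

open scoped TensorProduct
open H91.VG

section power

variable {ι κ : Type} [Fintype ι] [DecidableEq ι] [Fintype κ] [DecidableEq κ]

/-- `Σ sᵢ q(xᵢ, yᵢ)` -/
noncomputable def qP (s : ι → ℤ) (q : LinearMap.BilinForm ℤ (Fin 4 → ℤ)) :
    LinearMap.BilinForm ℤ (ι → Fin 4 → ℤ) :=
  ∑ i, s i • q.compl₁₂ (LinearMap.proj i) (LinearMap.proj i)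

theorem qP_apply (s : ι → ℤ) (q : LinearMap.BilinForm ℤ (Fin 4 → ℤ)) (x y : ι → Fin 4 → ℤ) :
    qP s q x y = ∑ i, s i * q (x i) (y i) := by
  simp [qP, LinearMap.sum_apply]

/-- coordinates -/
noncomputable def pC (i : ι) : ℂ ⊗[ℤ] (ι → Fin 4 → ℤ) →ₗ[ℂ] ℂ ⊗[ℤ] (Fin 4 → ℤ) :=
  (LinearMap.proj i : (ι → Fin 4 → ℤ) →ₗ[ℤ] (Fin 4 → ℤ)).baseChange ℂ

/-- inclusions -/
noncomputable def sC (i : ι) : ℂ ⊗[ℤ] (Fin 4 → ℤ) →ₗ[ℂ] ℂ ⊗[ℤ] (ι → Fin 4 → ℤ) :=
  (LinearMap.single ℤ (fun _ => Fin 4 → ℤ) i : (Fin 4 → ℤ) →ₗ[ℤ] (ι → Fin 4 → ℤ)).baseChange ℂ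

theorem pC_tmul (i : ι) (a : ℂ) (v : ι → Fin 4 → ℤ) : pC i (a ⊗ₜ[ℤ] v) = a ⊗ₜ[ℤ] v i := rfl

theorem sC_tmul (i : ι) (a : ℂ) (v : Fin 4 → ℤ) :
    sC i (a ⊗ₜ[ℤ] v) = a ⊗ₜ[ℤ] (Pi.single i v : ι → Fin 4 → ℤ) := rfl

theorem pC_sC (i j : ι) (x : ℂ ⊗[ℤ] (Fin 4 → ℤ)) :
    pC i (sC j x) = if i = j then x else 0 := by
  induction x using TensorProduct.induction_on with
  | zero => simp
  | add x y hx hy =>
    rw [map_add, map_add, hx, hy]
    split_ifs <;> simp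
  | tmul a v =>
    rw [sC_tmul, pC_tmul]
    by_cases h : i = j
    · subst h; simp
    · simp [h, Pi.single_apply]

theorem sum_sC (x : ℂ ⊗[ℤ] (ι → Fin 4 → ℤ)) : ∑ i, sC i (pC i x) = x := by
  induction x using TensorProduct.induction_on with
  | zero => simp
  | add x y hx hy =>
    conv_rhs => rw [← hx, ← hy]
    rw [← Finset.sum_add_distrib]
    refine Finset.sum_congr rfl fun i _ => ?_
    rw [map_add, map_add]
  | tmul a v =>
    simp only [pC_tmul, sC_tmul]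
    rw [← TensorProduct.tmul_sum]
    congr 1
    exact Finset.univ_sum_single v

theorem extP {x y : ℂ ⊗[ℤ] (ι → Fin 4 → ℤ)} (h : ∀ i, pC i x = pC i y) : x = y := by
  rw [← sum_sC x, ← sum_sC y]
  exact Finset.sum_congr rfl fun i _ => by rw [h i]

theorem qPC (s : ι → ℤ) (q : LinearMap.BilinForm ℤ (Fin 4 → ℤ)) (x y : ℂ ⊗[ℤ] (ι → Fin 4 → ℤ)) :
    (qP s q).baseChange ℂ x y = ∑ i, (s i : ℂ) * q.baseChange ℂ (pC i x) (pC i y) := by
  induction x using TensorProduct.induction_on with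
  | zero => simp
  | add x x' hx hx' =>
    rw [map_add, LinearMap.add_apply, hx, hx', ← Finset.sum_add_distrib]
    refine Finset.sum_congr rfl fun i _ => ?_
    rw [map_add, map_add, LinearMap.add_apply]; ring
  | tmul a v =>
    induction y using TensorProduct.induction_on with
    | zero => simp
    | add y y' hy hy' =>
      rw [map_add, hy, hy', ← Finset.sum_add_distrib]
      refine Finset.sum_congr rfl fun i _ => ?_
      rw [map_add, map_add]; ring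
    | tmul b w =>
      rw [LinearMap.BilinForm.baseChange_tmul, qP_apply, Finset.sum_smul]
      refine Finset.sum_congr rfl fun i _ => ?_
      rw [pC_tmul, pC_tmul, LinearMap.BilinForm.baseChange_tmul]
      simp only [zsmul_eq_mul, Int.cast_mul]
      ring

theorem pC_conj (i : ι) (x : ℂ ⊗[ℤ] (ι → Fin 4 → ℤ)) :
    pC i (H91.VF.conj (ι → Fin 4 → ℤ) x) = H91.VF.conj (Fin 4 → ℤ) (pC i x) :=
  (H91.VF.conj_baseChange _ x).symm

/-- Hodge pieces -/
noncomputable def pieceP (ι : Type) [Fintype ι] [DecidableEq ι] (p : ℤ) :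
    Submodule ℂ (ℂ ⊗[ℤ] (ι → Fin 4 → ℤ)) :=
  ⨅ i : ι, (piece p).comap (pC i)

theorem mem_pieceP (p : ℤ) (x : ℂ ⊗[ℤ] (ι → Fin 4 → ℤ)) :
    x ∈ pieceP ι p ↔ ∀ i, pC i x ∈ piece p := by
  simp [pieceP]

/-- projections -/
noncomputable def projP (ι : Type) [Fintype ι] [DecidableEq ι] (p : ℤ) :
    (ℂ ⊗[ℤ] (ι → Fin 4 → ℤ)) →ₗ[ℂ] (ℂ ⊗[ℤ] (ι → Fin 4 → ℤ)) :=
  ∑ i : ι, sC i ∘ₗ proj p ∘ₗ pC i

theorem pC_projP (p : ℤ) (i : ι) (x : ℂ ⊗[ℤ] (ι → Fin 4 → ℤ)) :
    pC i (projP ι p x) = proj p (pC i x) := by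
  simp only [projP, LinearMap.sum_apply, LinearMap.comp_apply, map_sum, pC_sC]
  simp

theorem internalP : DirectSum.IsInternal (pieceP ι) := by
  apply DirectSum.isInternal_submodule_of_iSupIndep_of_iSup_eq_top
  · intro p
    rw [Submodule.disjoint_def]
    intro x hx hx'
    have hle : (⨆ j, ⨆ (_ : j ≠ p), pieceP ι j) ≤ LinearMap.ker (projP ι p) := by
      refine iSup_le fun j => iSup_le fun hj => ?_
      intro y hy
      rw [LinearMap.mem_ker]
      apply extP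
      intro i
      rw [pC_projP, map_zero]
      exact proj_other p j (Ne.symm hj) _ ((mem_pieceP _ _).mp hy i)
    have h0 : projP ι p x = 0 := hle hx'
    have h1 : projP ι p x = x := by
      apply extP
      intro i
      rw [pC_projP]
      exact proj_self p _ ((mem_pieceP _ _).mp hx i)
    rw [← h1, h0]
  · rw [eq_top_iff]
    intro x _
    have h1 : projP ι 3 x + projP ι 1 x + projP ι 2 x = x := by
      apply extP
      intro i
      rw [map_add, map_add, pC_projP, pC_projP, pC_projP]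
      exact proj_sum _
    rw [← h1]
    have hm : ∀ p, projP ι p x ∈ pieceP ι p := by
      intro p
      rw [mem_pieceP]
      intro i
      rw [pC_projP]
      exact proj_mem p _
    refine Submodule.add_mem _ (Submodule.add_mem _ ?_ ?_) ?_
    · exact Submodule.mem_iSup_of_mem 3 (hm 3)
    · exact Submodule.mem_iSup_of_mem 1 (hm 1)
    · exact Submodule.mem_iSup_of_mem 2 (hm 2)

theorem conj_pieceP (p : ℤ) (x : ℂ ⊗[ℤ] (ι → Fin 4 → ℤ)) (h : x ∈ pieceP ι p) :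
    H91.VF.conj (ι → Fin 4 → ℤ) x ∈ pieceP ι (4 - p) := by
  rw [mem_pieceP] at h ⊢
  intro i
  rw [pC_conj]
  exact conj_piece p _ (h i)

theorem qV_symm (x y : Fin 4 → ℤ) : qV x y = qV y x := by
  rw [qV_apply, qV_apply]; ring

theorem qP_symm (s : ι → ℤ) (q : LinearMap.BilinForm ℤ (Fin 4 → ℤ))
    (hq : ∀ x y, q x y = q y x) (x y : ι → Fin 4 → ℤ) : qP s q x y = qP s q y x := by
  rw [qP_apply, qP_apply]
  exact Finset.sum_congr rfl fun i _ => by rw [hq]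

theorem nondegP (s : ι → ℤ) (hs : ∀ i, s i * s i = 1) (x : ι → Fin 4 → ℤ)
    (h : ∀ y, qP s qV x y = 0) : x = 0 := by
  funext i
  refine nondegV (x i) fun v => ?_
  have h1 := h (Pi.single i v)
  rw [qP_apply, Finset.sum_eq_single i] at h1
  · rw [Pi.single_eq_same] at h1
    have h2 : s i ≠ 0 := by
      intro h0
      have := hs i
      rw [h0] at this
      simp at this
    exact (mul_eq_zero.mp h1).resolve_left h2
  · intro j _ hj
    rw [Pi.single_eq_of_ne hj]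
    simp
  · simp

theorem repP (s : ι → ℤ) (hs : ∀ i, s i * s i = 1) (l : (ι → Fin 4 → ℤ) →ₗ[ℤ] ℤ) :
    ∃ v : ι → Fin 4 → ℤ, ∀ w, qP s qV v w = l w := by
  choose v hv using fun i => repV (l ∘ₗ LinearMap.single ℤ (fun _ => Fin 4 → ℤ) i)
  refine ⟨fun i => s i • v i, fun w => ?_⟩
  rw [qP_apply]
  have h1 : ∀ i, s i * qV (s i • v i) (w i) = l (Pi.single i (w i)) := by
    intro i
    rw [map_smul, LinearMap.smul_apply, smul_eq_mul, ← mul_assoc, hs, one_mul, hv]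
    rfl
  rw [Finset.sum_congr rfl fun i _ => h1 i, ← map_sum]
  congr 1
  exact Finset.univ_sum_single w

theorem orthP (s : ι → ℤ) (q : LinearMap.BilinForm ℤ (Fin 4 → ℤ))
    (hq : ∀ (p r : ℤ) (x y : ℂ ⊗[ℤ] (Fin 4 → ℤ)), x ∈ piece p → y ∈ piece r → p + r ≠ 4 →
      q.baseChange ℂ x y = 0) (p r : ℤ) (x y : ℂ ⊗[ℤ] (ι → Fin 4 → ℤ))
    (hx : x ∈ pieceP ι p) (hy : y ∈ pieceP ι r) (h : p + r ≠ 4) :
    (qP s q).baseChange ℂ x y = 0 := by
  rw [qPC]
  refine Finset.sum_eq_zero fun i _ => ?_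
  rw [hq p r _ _ ((mem_pieceP _ _).mp hx i) ((mem_pieceP _ _).mp hy i) h, mul_zero]

theorem posP (p : ℤ) (x : ℂ ⊗[ℤ] (ι → Fin 4 → ℤ)) (hx : x ∈ pieceP ι p) (hx0 : x ≠ 0) :
    ∃ r : ℝ, 0 < r ∧ (-1 : ℂ) ^ p *
      (qP (fun _ : ι => 1) QV).baseChange ℂ x (H91.VF.conj (ι → Fin 4 → ℤ) x) = (r : ℂ) := by
  have h1 : ∀ i, ∃ r : ℝ, (0 ≤ r ∧ (pC i x ≠ 0 → 0 < r)) ∧ (-1 : ℂ) ^ p *
      QV.baseChange ℂ (pC i x) (pC i (H91.VF.conj (ι → Fin 4 → ℤ) x)) = (r : ℂ) := by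
    intro i
    rw [pC_conj]
    by_cases h0 : pC i x = 0
    · refine ⟨0, ⟨le_refl _, fun h => absurd h0 h⟩, ?_⟩
      rw [h0]; simp
    · obtain ⟨r, hr, h2⟩ := posQ p (pC i x) ((mem_pieceP _ _).mp hx i) h0
      exact ⟨r, ⟨hr.le, fun _ => hr⟩, h2⟩
  choose r hr hr2 using h1
  refine ⟨∑ i, r i, ?_, ?_⟩
  · have h3 : ∃ i, pC i x ≠ 0 := by
      by_contra hcon
      push Not at hcon
      exact hx0 (extP fun i => by rw [hcon i, map_zero])
    obtain ⟨i, hi⟩ := h3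
    exact lt_of_lt_of_le ((hr i).2 hi)
      (Finset.single_le_sum (f := r) (fun j _ => (hr j).1) (Finset.mem_univ i))
  · rw [qPC, Finset.mul_sum]
    push_cast
    refine Finset.sum_congr rfl fun i _ => ?_
    rw [← hr2 i]
    ring

/-- `V ⊗ ⟨s⟩` as a lattice -/
noncomputable def latP (s : ι → ℤ) : H91.VG.Lat where
  V := ι → Fin 4 → ℤ
  form := qP s qV
  symm := qP_symm s qV qV_symm

/-- `V ⊗ ⟨s⟩` -/
noncomputable def evP (s : ι → ℤ) (hs : ∀ i, s i * s i = 1) : HLat where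
  toLat := latP s
  H := pieceP ι
  internal := internalP
  conj_mem := conj_pieceP
  unimod := ⟨nondegP s hs, repP s hs⟩
  orth := orthP s qV orthV
  polarizable := ⟨qP (fun _ => 1) QV, qP_symm _ QV QV_symm, orthP _ QV orthQ, posP⟩

/-- Maps given by monomial matrices are morphisms of Hodge structures. -/
theorem mor_crit (f : (ι → Fin 4 → ℤ) →ₗ[ℤ] (κ → Fin 4 → ℤ))
    (hf : ∀ k, (∃ (i : ι) (c : ℤ), ∀ x, f x k = c • x i) ∨ ∀ x, f x k = 0) (p : ℤ)
    (x : ℂ ⊗[ℤ] (ι → Fin 4 → ℤ)) (hx : x ∈ pieceP ι p) : f.baseChange ℂ x ∈ pieceP κ p := by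
  rw [mem_pieceP] at hx ⊢
  intro k
  have h1 : pC k (f.baseChange ℂ x) =
      ((LinearMap.proj k : (κ → Fin 4 → ℤ) →ₗ[ℤ] (Fin 4 → ℤ)) ∘ₗ f).baseChange ℂ x := by
    rw [LinearMap.baseChange_comp]
    rfl
  rw [h1]
  rcases hf k with ⟨i, c, h⟩ | h
  · have h2 : (LinearMap.proj k : (κ → Fin 4 → ℤ) →ₗ[ℤ] (Fin 4 → ℤ)) ∘ₗ f =
        c • (LinearMap.proj i : (ι → Fin 4 → ℤ) →ₗ[ℤ] (Fin 4 → ℤ)) := by
      refine LinearMap.ext fun y => ?_
      exact h y
    rw [h2, LinearMap.baseChange_smul, LinearMap.smul_apply]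
    exact Submodule.smul_of_tower_mem _ c (hx i)
  · have h2 : (LinearMap.proj k : (κ → Fin 4 → ℤ) →ₗ[ℤ] (Fin 4 → ℤ)) ∘ₗ f = 0 := by
      refine LinearMap.ext fun y => ?_
      exact h y
    rw [h2, LinearMap.baseChange_zero, LinearMap.zero_apply]
    exact Submodule.zero_mem _

end power

section formulas

variable {ι ι' κ : Type} [Fintype ι] [DecidableEq ι] [Fintype ι'] [DecidableEq ι']
  [Fintype κ] [DecidableEq κ]

/-- The map `x ↦ (a x, b x)` along a decomposition `ι ⊕ ι ≃ κ` -/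
def two (ε : ι ⊕ ι ≃ κ) (a b : ι → ℤ) : (ι → Fin 4 → ℤ) →ₗ[ℤ] (κ → Fin 4 → ℤ) where
  toFun := fun x k => Sum.elim (fun i => a i • x i) (fun i => b i • x i) (ε.symm k)
  map_add' := by
    intro x y
    funext k
    rcases h : ε.symm k with i | i <;> simp [h]
  map_smul' := by
    intro c x
    funext k
    rcases h : ε.symm k with i | i <;>
      simp only [h, Sum.elim_inl, Sum.elim_inr, Pi.smul_apply, RingHom.id_apply] <;>
      rw [smul_comm]

theorem two_inl (ε : ι ⊕ ι ≃ κ) (a b : ι → ℤ) (x : ι → Fin 4 → ℤ) (i : ι) :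
    two ε a b x (ε (Sum.inl i)) = a i • x i := by
  simp [two]

theorem two_inr (ε : ι ⊕ ι ≃ κ) (a b : ι → ℤ) (x : ι → Fin 4 → ℤ) (i : ι) :
    two ε a b x (ε (Sum.inr i)) = b i • x i := by
  simp [two]

theorem two_mor (ε : ι ⊕ ι ≃ κ) (a b : ι → ℤ) (k : κ) :
    (∃ (i : ι) (c : ℤ), ∀ x, two ε a b x k = c • x i) ∨ ∀ x, two ε a b x k = 0 := by
  left
  rcases h : ε.symm k with i | i
  · refine ⟨i, a i, fun x => ?_⟩
    simp [two, h]
  · refine ⟨i, b i, fun x => ?_⟩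
    simp [two, h]

theorem two_form (s : ι → ℤ) (t : κ → ℤ) (ε : ι ⊕ ι ≃ κ)
    (h1 : ∀ i, t (ε (Sum.inl i)) = 1) (h2 : ∀ i, t (ε (Sum.inr i)) = -1) (a b c d : ι → ℤ)
    (n : ℤ) (h : ∀ i, a i * c i - b i * d i = n * s i) (x y : ι → Fin 4 → ℤ) :
    qP t qV (two ε a b x) (two ε c d y) = n * qP s qV x y := by
  rw [qP_apply, qP_apply, ← ε.sum_comp, Fintype.sum_sum_type, ← Finset.sum_add_distrib,
    Finset.mul_sum]
  refine Finset.sum_congr rfl fun i _ => ?_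
  rw [two_inl, two_inl, two_inr, two_inr, h1, h2]
  simp only [map_smul, LinearMap.smul_apply, smul_eq_mul]
  linear_combination (qV (x i) (y i)) * h i

theorem two_bij (s : ι → ℤ) (hs : ∀ i, s i * s i = 1) (ε : ι ⊕ ι ≃ κ) :
    Function.Bijective (fun x : Fin 2 → (ι → Fin 4 → ℤ) =>
      ∑ k, ((![two ε 1 1, two ε s 0] : Fin 2 → ((ι → Fin 4 → ℤ) →ₗ[ℤ] (κ → Fin 4 → ℤ))) k)
        (x k)) := by
  have h0 : (fun x : Fin 2 → (ι → Fin 4 → ℤ) =>
      ∑ k, ((![two ε 1 1, two ε s 0] : Fin 2 → ((ι → Fin 4 → ℤ) →ₗ[ℤ] (κ → Fin 4 → ℤ))) k)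
        (x k)) = fun x => two ε 1 1 (x 0) + two ε s 0 (x 1) := by
    funext x
    simp [Fin.sum_univ_two]
  rw [h0]
  constructor
  · intro x y hxy
    have h3 : ∀ k, (two ε 1 1 (x 0)) k + (two ε s 0 (x 1)) k =
        (two ε 1 1 (y 0)) k + (two ε s 0 (y 1)) k := by
      intro k
      exact congrFun hxy k
    have h4 : ∀ i, x 0 i = y 0 i := by
      intro i
      have := h3 (ε (Sum.inr i))
      simpa [two_inr] using this
    have h5 : ∀ i, x 1 i = y 1 i := by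
      intro i
      have h6 := h3 (ε (Sum.inl i))
      simp only [two_inl, Pi.one_apply, one_smul, h4 i, add_right_inj] at h6
      have h7 := congrArg (fun z => s i • z) h6
      simp only [smul_smul, hs, one_smul] at h7
      exact h7
    funext k
    fin_cases k
    · funext i; exact h4 i
    · funext i; exact h5 i
  · intro z'
    refine ⟨![fun i => z' (ε (Sum.inr i)),
      fun i => s i • (z' (ε (Sum.inl i)) - z' (ε (Sum.inr i)))], ?_⟩
    funext k
    obtain ⟨j, rfl⟩ := ε.surjective k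
    rcases j with i | i
    · simp only [Pi.add_apply, two_inl, Pi.one_apply, one_smul, Matrix.cons_val_zero,
        Matrix.cons_val_one, smul_smul, hs]
      abel
    · simp only [Pi.add_apply, two_inr, Pi.one_apply, one_smul, Pi.zero_apply, zero_smul,
        add_zero, Matrix.cons_val_zero]

/-- Projective line bundles -/
theorem bundleP (s : ι → ℤ) (hs : ∀ i, s i * s i = 1) (t : κ → ℤ) (ht : ∀ k, t k * t k = 1)
    (ε : ι ⊕ ι ≃ κ) (h1 : ∀ i, t (ε (Sum.inl i)) = 1) (h2 : ∀ i, t (ε (Sum.inr i)) = -1) :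
    BundleFormula (evP s hs) (evP t ht) 2 := by
  refine ⟨![two ε 1 1, two ε s 0], ⟨?_, ?_, ?_⟩, two_bij s hs ε⟩
  · intro k
    fin_cases k
    · exact mor_crit _ (two_mor ε 1 1)
    · exact mor_crit _ (two_mor ε s 0)
  · intro k l hkl x y
    have hk : k = 0 := by omega
    have hl : l = 0 := by omega
    subst hk; subst hl
    have := two_form s t ε h1 h2 1 1 1 1 0 (by simp) x y
    rw [zero_mul] at this
    exact this
  · intro k l hkl x y
    have hk : (k = 0 ∧ l = 1) ∨ (k = 1 ∧ l = 0) := by omega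
    rcases hk with ⟨rfl, rfl⟩ | ⟨rfl, rfl⟩
    · exact two_form s t ε h1 h2 1 1 s 0 1 (by simp) x y
    · exact two_form s t ε h1 h2 s 0 1 1 1 (by simp) x y

/-- The inclusion of the first summand -/
def incl1 (ε : ι ⊕ ι' ≃ κ) : (ι → Fin 4 → ℤ) →ₗ[ℤ] (κ → Fin 4 → ℤ) where
  toFun := fun x k => Sum.elim x 0 (ε.symm k)
  map_add' := by
    intro x y
    funext k
    rcases h : ε.symm k with i | i <;> simp [h]
  map_smul' := by
    intro c x
    funext k
    rcases h : ε.symm k with i | i <;> simp [h]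

/-- The inclusion of the second summand -/
def incl2 (ε : ι ⊕ ι' ≃ κ) : (ι' → Fin 4 → ℤ) →ₗ[ℤ] (κ → Fin 4 → ℤ) where
  toFun := fun x k => Sum.elim 0 x (ε.symm k)
  map_add' := by
    intro x y
    funext k
    rcases h : ε.symm k with i | i <;> simp [h]
  map_smul' := by
    intro c x
    funext k
    rcases h : ε.symm k with i | i <;> simp [h]

theorem incl1_inl (ε : ι ⊕ ι' ≃ κ) (x : ι → Fin 4 → ℤ) (i : ι) :
    incl1 ε x (ε (Sum.inl i)) = x i := by simp [incl1]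

theorem incl1_inr (ε : ι ⊕ ι' ≃ κ) (x : ι → Fin 4 → ℤ) (i : ι') :
    incl1 ε x (ε (Sum.inr i)) = 0 := by simp [incl1]

theorem incl2_inl (ε : ι ⊕ ι' ≃ κ) (x : ι' → Fin 4 → ℤ) (i : ι) :
    incl2 ε x (ε (Sum.inl i)) = 0 := by simp [incl2]

theorem incl2_inr (ε : ι ⊕ ι' ≃ κ) (x : ι' → Fin 4 → ℤ) (i : ι') :
    incl2 ε x (ε (Sum.inr i)) = x i := by simp [incl2]

theorem incl1_mor (ε : ι ⊕ ι' ≃ κ) (k : κ) :
    (∃ (i : ι) (c : ℤ), ∀ x, incl1 ε x k = c • x i) ∨ ∀ x, incl1 ε x k = 0 := by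
  rcases h : ε.symm k with i | i
  · left; exact ⟨i, 1, fun x => by simp [incl1, h]⟩
  · right; intro x; simp [incl1, h]

theorem incl2_mor (ε : ι ⊕ ι' ≃ κ) (k : κ) :
    (∃ (i : ι') (c : ℤ), ∀ x, incl2 ε x k = c • x i) ∨ ∀ x, incl2 ε x k = 0 := by
  rcases h : ε.symm k with i | i
  · right; intro x; simp [incl2, h]
  · left; exact ⟨i, 1, fun x => by simp [incl2, h]⟩

theorem incl_bij (ε : ι ⊕ ι' ≃ κ) :
    Function.Bijective (fun x : (ι → Fin 4 → ℤ) × (Fin 1 → (ι' → Fin 4 → ℤ)) =>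
      incl1 ε x.1 + ∑ k, incl2 ε (x.2 k)) := by
  constructor
  · rintro ⟨x, z⟩ ⟨x', z'⟩ hxy
    have h3 : ∀ k, (incl1 ε x) k + (incl2 ε (z 0)) k =
        (incl1 ε x') k + (incl2 ε (z' 0)) k := by
      intro k
      have := congrFun hxy k
      simpa using this
    have h4 : x = x' := by
      funext i
      have := h3 (ε (Sum.inl i))
      simpa [incl1_inl, incl2_inl] using this
    have h5 : z = z' := by
      funext j
      have hj : j = 0 := by omega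
      subst hj
      funext i
      have := h3 (ε (Sum.inr i))
      simpa [incl1_inr, incl2_inr] using this
    rw [h4, h5]
  · intro z'
    refine ⟨⟨fun i => z' (ε (Sum.inl i)), fun _ i => z' (ε (Sum.inr i))⟩, ?_⟩
    funext k
    obtain ⟨j, rfl⟩ := ε.surjective k
    rcases j with i | i
    · simp [incl1_inl, incl2_inl]
    · simp [incl1_inr, incl2_inr]

/-- Blow-ups in codimension two -/
theorem blowP (s : ι → ℤ) (hs : ∀ i, s i * s i = 1) (s' : ι' → ℤ) (hs' : ∀ i, s' i * s' i = 1)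
    (t : κ → ℤ) (ht : ∀ k, t k * t k = 1)
    (ε : ι ⊕ ι' ≃ κ) (h1 : ∀ i, t (ε (Sum.inl i)) = s i)
    (h2 : ∀ i, t (ε (Sum.inr i)) = - s' i) :
    BlowUpFormula (evP s hs) (evP s' hs') (evP t ht) 1 := by
  have g1 : ∀ x y : ι' → Fin 4 → ℤ,
      qP t qV (incl2 ε x) (incl2 ε y) = -1 * qP s' qV x y := by
    intro x y
    rw [qP_apply, qP_apply, ← ε.sum_comp, Fintype.sum_sum_type, Finset.mul_sum]
    simp only [incl2_inl, incl2_inr, h1, h2, map_zero, mul_zero, LinearMap.zero_apply,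
      Finset.sum_const_zero, zero_add]
    exact Finset.sum_congr rfl fun i _ => by ring
  have g2 : ∀ x y : ι → Fin 4 → ℤ, qP t qV (incl1 ε x) (incl1 ε y) = qP s qV x y := by
    intro x y
    rw [qP_apply, qP_apply, ← ε.sum_comp, Fintype.sum_sum_type]
    simp only [incl1_inl, incl1_inr, h1, h2, map_zero, mul_zero, LinearMap.zero_apply,
      Finset.sum_const_zero, add_zero]
  have g3 : ∀ (x : ι → Fin 4 → ℤ) (y : ι' → Fin 4 → ℤ),
      qP t qV (incl1 ε x) (incl2 ε y) = 0 := by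
    intro x y
    rw [qP_apply, ← ε.sum_comp, Fintype.sum_sum_type]
    simp only [incl1_inl, incl1_inr, incl2_inl, incl2_inr, map_zero, mul_zero,
      LinearMap.zero_apply, Finset.sum_const_zero, add_zero]
  refine ⟨incl1 ε, fun _ => incl2 ε, mor_crit _ (incl1_mor ε),
    ⟨fun k => mor_crit _ (incl2_mor ε), ?_, fun k l hkl x y => g1 x y⟩, g2,
    fun x k y => g3 x y, incl_bij ε⟩
  intro k l hkl
  omega

/-- The trivial bundle formula -/
theorem bundle_one (A : HLat) : BundleFormula A A 1 := by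
  refine ⟨fun _ => LinearMap.id, ⟨?_, ?_, ?_⟩, ?_⟩
  · intro k p x hx
    rw [mapC_id]
    exact hx
  · intro k l hkl
    omega
  · intro k l hkl x y
    rw [one_mul]
    rfl
  · constructor
    · intro x y hxy
      funext j
      have hj : j = 0 := by omega
      subst hj
      simpa using hxy
    · intro z
      exact ⟨fun _ => z, by simp⟩

/-- The blow-up of a divisor -/
theorem blow_zero (A Z : HLat) : BlowUpFormula A Z A 0 := by
  refine ⟨LinearMap.id, fun k => k.elim0, ?_, ⟨?_, ?_, ?_⟩, ?_, ?_, ?_⟩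
  · intro p x hx
    rw [mapC_id]
    exact hx
  · intro k; exact k.elim0
  · intro k; exact k.elim0
  · intro k; exact k.elim0
  · intro x y; rfl
  · intro x k; exact k.elim0
  · constructor
    · rintro ⟨x, z⟩ ⟨x', z'⟩ hxy
      have h1 : x = x' := by simpa using hxy
      have h2 : z = z' := by funext j; exact j.elim0
      rw [h1, h2]
    · intro z
      exact ⟨⟨z, fun k => k.elim0⟩, by simp⟩

end formulas

/-! ## The varieties -/

/-- signs -/
def sg (a b : ℕ) : Fin a ⊕ Fin b → ℤ := Sum.elim (fun _ => 1) (fun _ => -1)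

theorem sg_mul (a b : ℕ) (i : Fin a ⊕ Fin b) : sg a b i * sg a b i = 1 := by
  rcases i with i | i <;> simp [sg]

/-- `V ⊗ ⟨1⟩^a ⟨-1⟩^b` -/
noncomputable def evT (w : ℕ × ℕ) : HLat := evP (sg w.1 w.2) (sg_mul w.1 w.2)

theorem evT_P1 (w : ℕ × ℕ) : BundleFormula (evT w) (evT (w.1 + w.2, w.1 + w.2)) 2 := by
  refine bundleP _ _ _ _ (Equiv.sumCongr finSumFinEquiv finSumFinEquiv) ?_ ?_
  · intro i; rfl
  · intro i; rfl

/-- the index sets of a blow-up -/
def epsB (a b c d : ℕ) : (Fin a ⊕ Fin b) ⊕ (Fin c ⊕ Fin d) ≃ Fin (a + d) ⊕ Fin (b + c) :=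
  ((Equiv.refl _).sumCongr (Equiv.sumComm _ _)).trans
    ((Equiv.sumSumSumComm _ _ _ _).trans (Equiv.sumCongr finSumFinEquiv finSumFinEquiv))

theorem evT_B (w z : ℕ × ℕ) :
    BlowUpFormula (evT w) (evT z) (evT (w.1 + z.2, w.2 + z.1)) 1 := by
  refine blowP _ _ _ _ _ _ (epsB w.1 w.2 z.1 z.2) ?_ ?_
  · rintro (i | i) <;> rfl
  · rintro (i | i) <;> rfl

/-- Blow-ups: of divisors, and of subvarieties of codimension two -/
def BlowT (W Z B E : ℕ × ℕ) (m : ℕ) : Prop :=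
  (m = 0 ∧ B = W ∧ E = Z) ∨
    (m = 1 ∧ B = (W.1 + Z.2, W.2 + Z.1) ∧ E = (Z.1 + Z.2, Z.1 + Z.2))

theorem bittnerT (A : Type) [AddCommGroup A] (χ : ℕ × ℕ → A)
    (h : ∀ W Z B E m, BlowT W Z B E m → χ B - χ E = χ W - χ Z) :
    ∃ F : ℤ × Zsqrtd 1 →+ A, ∀ W : ℕ × ℕ, F (1, ⟨W.1, W.2⟩) = χ W := by
  have h1 : ∀ W Z : ℕ × ℕ, χ (W.1 + Z.2, W.2 + Z.1) =
      χ W + (χ (Z.1 + Z.2, Z.1 + Z.2) - χ Z) := by
    intro W Z
    have := h W Z _ _ 1 (Or.inr ⟨rfl, rfl, rfl⟩)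
    rw [sub_eq_iff_eq_add] at this
    rw [this]; abel
  have h2 : ∀ W Z : ℕ × ℕ, χ (W.1 + Z.2, W.2 + Z.1) = χ W + (χ (Z.2, Z.1) - χ (0, 0)) := by
    intro W Z
    have h3 := h1 (0, 0) Z
    simp only [zero_add] at h3
    rw [h1 W Z, h3]
    abel
  have h4 : ∀ a b : ℕ, χ (a, b) =
      χ (0, 0) + a • (χ (1, 0) - χ (0, 0)) + b • (χ (0, 1) - χ (0, 0)) := by
    intro a
    induction a with
    | zero =>
      intro b
      induction b with
      | zero => simp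
      | succ b ih =>
        have := h2 (0, b) (1, 0)
        simp only [add_zero, zero_add] at this
        rw [this, ih, succ_nsmul]
        abel
    | succ a ih =>
      intro b
      have := h2 (a, b) (0, 1)
      simp only [add_zero, zero_add] at this
      rw [this, ih b, succ_nsmul]
      abel
  refine ⟨{ toFun := fun p => p.1 • χ (0, 0) + p.2.re • (χ (1, 0) - χ (0, 0)) +
      p.2.im • (χ (0, 1) - χ (0, 0))
            map_zero' := by simp
            map_add' := ?_ }, ?_⟩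
  · intro p q
    simp only [Prod.fst_add, Prod.snd_add, Zsqrtd.re_add, Zsqrtd.im_add, add_smul]
    abel
  · intro W
    change (1 : ℤ) • χ (0, 0) + (W.1 : ℤ) • (χ (1, 0) - χ (0, 0)) +
      (W.2 : ℤ) • (χ (0, 1) - χ (0, 0)) = χ W
    rw [one_smul, natCast_zsmul, natCast_zsmul, ← h4]

/-- the only Verra fourfold -/
theorem middleT : Middle cohV.toHLat (evT (1, 0)) := by
  let i : (Fin 4 → ℤ) →ₗ[ℤ] (Fin 1 ⊕ Fin 0 → Fin 4 → ℤ) :=
    { toFun := fun v _ => v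
      map_add' := fun _ _ => rfl
      map_smul' := fun _ _ => rfl }
  have hi : ∀ x y, qP (sg 1 0) qV (i x) (i y) = qV x y := by
    intro x y
    rw [qP_apply, Fintype.sum_sum_type]
    simp [sg, i]
  refine ⟨i, ?_, hi, ?_⟩
  · have h1 : ∀ (p : ℤ) (x : ℂ ⊗[ℤ] (Fin 4 → ℤ)), x ∈ piece p →
        i.baseChange ℂ x ∈ pieceP (Fin 1 ⊕ Fin 0) p := by
      intro p x hx
      rw [mem_pieceP]
      intro k
      have h2 : pC k (i.baseChange ℂ x) =
          ((LinearMap.proj k : (Fin 1 ⊕ Fin 0 → Fin 4 → ℤ) →ₗ[ℤ] (Fin 4 → ℤ)) ∘ₗ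
            i).baseChange ℂ x := by
        rw [LinearMap.baseChange_comp]
        rfl
      have h3 : (LinearMap.proj k : (Fin 1 ⊕ Fin 0 → Fin 4 → ℤ) →ₗ[ℤ] (Fin 4 → ℤ)) ∘ₗ i =
          LinearMap.id := rfl
      rw [h2, h3, LinearMap.baseChange_id]
      exact hx
    exact h1
  · intro v hv
    have h1 : ∀ w : Fin 1 ⊕ Fin 0 → Fin 4 → ℤ, ∃ x, i x = w := by
      intro w
      refine ⟨w (Sum.inl 0), ?_⟩
      funext k
      rcases k with k | k
      · have : k = 0 := by omega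
        subst this; rfl
      · exact k.elim0
    have h2 : v = 0 := by
      apply (evT (1, 0)).unimod.1
      intro w
      obtain ⟨x, rfl⟩ := h1 w
      exact hv x
    rw [h2]
    exact Submodule.zero_mem _

end H52.VG
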